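import Pool.Agent.Q85.VL.Fin
import Pool.Agent.Q151.CC.Double

/-!
Project VL: the half-space, the double cone and the angles, with thresholds in the Kato class.
-/

set_option autoImplicit false

open MeasureTheory Set Metric Filter Topology
open scoped ContDiff
open H459R3.NS Pool.Agent.W268.NS Pool.Agent.Q67.VD
open Pool.Agent.Q199.VD

namespace Pool.Agent.Q85.VL

open Pool.Agent.Q85.CC Pool.Agent.Q85.CL Pool.Agent.Q151.CC

/-! ### Linear functions -/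

lemma lin_deriv (e y n : V) : fderiv ℝ (fun y : V => e ⬝ᵥ y) y n = e ⬝ᵥ n := by
  have h1 : HasFDerivAt (fun y : V => e ⬝ᵥ y)
      (∑ i, e i • (ContinuousLinearMap.proj i : V →L[ℝ] ℝ)) y := by
    unfold dotProduct
    refine HasFDerivAt.fun_sum fun i _ => ?_
    exact ((ContinuousLinearMap.proj i : V →L[ℝ] ℝ).hasFDerivAt).const_mul (e i)
  rw [h1.fderiv]
  simp [dotProduct, ContinuousLinearMap.sum_apply]

lemma lin_smooth (e : V) : ContDiff ℝ 1 (fun y : V => e ⬝ᵥ y) := by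
  unfold dotProduct
  fun_prop

lemma dot_le_len {e : V} (he : e ⬝ᵥ e = 1) (b : V) : |e ⬝ᵥ b| ≤ len b := by
  have h1 := cs e b
  rw [he, one_mul] at h1
  exact Real.abs_le_sqrt h1

lemma lin_lip {e : V} (he : e ⬝ᵥ e = 1) (y z : V) : |e ⬝ᵥ y - e ⬝ᵥ z| ≤ len (y - z) := by
  rw [← dotProduct_sub]
  exact dot_le_len he _

/-- The field of a half-space condition. -/
lemma lf_half {κ R : ℝ} {a e : V} {v : V → V} {m m' : V → ℝ} (hv : SM v) (hκ : κ ≤ 1)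
    (he : e ⬝ᵥ e = 1) (hm' : Continuous m') (h0 : ∀ y, 0 ≤ m' y) (hmm : ∀ y, 2 * m y ≤ m' y)
    (h : ∀ y, ‖y - a‖ ≤ R → m y < om v y → κ * om v y ≤ e ⬝ᵥ vort v y) :
    LF κ R a (om v) m' (vort v) (fun y => e ⬝ᵥ y) := by
  refine ⟨(vort_df hv).wd R a, om_contL hv, hm', h0, fun y _ => le_rfl, lin_smooth e, lin_lip he,
    fun y hy => ?_⟩
  rw [lin_deriv]
  rw [mem_closedBall, dist_eq_norm] at hy
  have h2 := (abs_le.1 (dot_le_len he (vort v y))).1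
  have h2' : -om v y ≤ e ⬝ᵥ vort v y := h2
  have h3 : κ * om v y ≤ om v y := mul_le_of_le_one_left (om_nnL _ _) hκ
  rcases lt_or_ge (m y) (om v y) with h1 | h1
  · linarith [h y hy h1, h0 y]
  · linarith [hmm y]

/-- The field of a double cone condition. -/
lemma lf_dbl {κ R : ℝ} {a e : V} {v : V → V} {m' : V → ℝ} (hv : SM v) (hκ : 0 < κ) (hR : 0 ≤ R)
    (hm' : Continuous m') (h0 : ∀ y, 0 ≤ m' y) (h : DCone κ R e a v) :
    LF κ R a (om v) m' (uf e a R v) (fun y => e ⬝ᵥ y) := by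
  have hcf := uf_cf hv hκ hR h
  refine ⟨hcf.wd, om_contL hv, hm', h0, fun y hy => ?_, lin_smooth e, lin_lip h.1, fun y hy => ?_⟩
  · rw [uf_eq hR hy]
    unfold ud
    rw [len_smulI]
    exact mul_le_of_le_one_left (Real.sqrt_nonneg _) (sg_le _)
  · rw [lin_deriv]
    linarith [hcf.lo y hy, h0 y]

/-- The field of a small vorticity. -/
lemma lf_small {κ R : ℝ} {a : V} {v : V → V} {m' : V → ℝ} (hv : SM v) (hκ : κ ≤ 1)
    (hm' : Continuous m') (h0 : ∀ y, 0 ≤ m' y) (h : ∀ y, ‖y - a‖ ≤ R → om v y ≤ m' y) :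
    LF κ R a (om v) m' (vort v) (fun _ => 0) := by
  refine ⟨(vort_df hv).wd R a, om_contL hv, hm', h0, fun y _ => le_rfl, contDiff_const,
    fun y z => ?_, fun y hy => ?_⟩
  · rw [sub_self, abs_zero]
    exact Real.sqrt_nonneg _
  · rw [mem_closedBall, dist_eq_norm] at hy
    have h3 : κ * om v y ≤ om v y := mul_le_of_le_one_left (om_nnL _ _) hκ
    have h4 : fderiv ℝ (fun _ : V => (0 : ℝ)) y (vort v y) = 0 := by simp
    rw [h4, zero_add]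
    exact h3.trans (h y hy)

/-! ### Solutions in an open set -/

lemma time_memK {ν T₀ T t' : ℝ} (hν : 0 < ν) (ht' : t' ∈ Ioo (ν * T₀) (ν * T)) :
    t' / ν ∈ Ioo T₀ T := by
  refine ⟨?_, ?_⟩
  · rw [lt_div_iff₀ hν, mul_comm]
    exact ht'.1
  · rw [div_lt_iff₀ hν, mul_comm]
    exact ht'.2

set_option maxHeartbeats 1600000 in
/-- The reduction to a smooth field with viscosity one at a fixed time. -/
theorem lyap_K (hLy : StmLyap) (hDm : StmDom) {ν T E : ℝ} {Ω : Set V} {u : ℝ → V → V}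
    {p : ℝ → V → ℝ} (hν : 0 < ν) (hT : 0 < T) (h : DSl ν T E Ω u p) {T₀ κ R : ℝ} {a : V}
    {m : ℝ → V → ℝ} (hT0 : 0 ≤ T₀) (hT₀ : T₀ < T) (hκ : 0 < κ) (hR : 0 < R)
    (hΩ : closedBall a R ⊆ Ω) (hmc : ∀ t ∈ Ioo T₀ T, Continuous (m t))
    (hm0 : ∀ t ∈ Ioo T₀ T, ∀ y, 0 ≤ m t y) (hK : Kato T₀ T a R m)
    (hc : ∀ t ∈ Ioo T₀ T, ∀ v : V → V, SM v →
      (∀ y, ‖y - a‖ ≤ R / 2 → vort v y = ν⁻¹ • vort (u t) y) →
      (∀ y, ‖y - a‖ ≤ R / 2 → om v y = ν⁻¹ * om (u t) y) →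
      ∃ (W : V → V) (g : V → ℝ), LF κ (R / 2) a (om v) (fun y => 2 * (ν⁻¹ * m t y + 1)) W g) :
    ∃ B δ : ℝ, 0 < δ ∧ ∀ t ∈ Ioo 0 T, T - δ < t → ∀ x, ‖x - a‖ ≤ δ → ‖u t x‖ ≤ B := by
  obtain ⟨E', v, q, hL, hv⟩ := hDm ν T E Ω u p hν hT h a R hR hΩ
  have hνi : 0 < ν⁻¹ := inv_pos.2 hν
  refine back hν hR hT hv (hLy (ν * T) E' (ball a R) v q
    (mul_pos hν hT) hL (ν * T₀) κ (R / 2) a (fun t y => 2 * (ν⁻¹ * m (t / ν) y + 1))
    (by positivity) (mul_lt_mul_of_pos_left hT₀ hν) hκ (by positivity)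
    (closedBall_subset_ball (by linarith)) (kato_rem hν (by linarith) hmc hm0 hK) ?_)
  intro t' ht'
  have hνt : 0 < t' := (by positivity : 0 ≤ ν * T₀).trans_lt ht'.1
  have hI' : t' ∈ Ioo 0 (ν * T) := ⟨hνt, ht'.2⟩
  have ht : t' / ν ∈ Ioo T₀ T := time_memK hν ht'
  have hI : t' / ν ∈ Ioo 0 T := ⟨by positivity, ht.2⟩
  have htν : ν * (t' / ν) = t' := by field_simp
  have hsm : SM (v t') := slice_u hL.toLEq hI'
  have hev : ∀ y, ‖y - a‖ ≤ R / 2 → ∀ᶠ z in 𝓝 y, v t' z = ν⁻¹ • u (t' / ν) z := by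
    intro y hy
    refine ball_ev (a := a) (R := R) (fun z hz => ?_) (by
      rw [Metric.mem_ball, dist_eq_norm]
      linarith)
    rw [← hv _ hI z hz, htν]
  exact hc _ ht (v t') hsm (fun y hy => vort_evD (hev y hy)) (fun y hy => om_evD hνi.le (hev y hy))

/-- The half-space condition above a threshold in the Kato class. -/
theorem half_K (hLy : StmLyap) (hDm : StmDom) {ν T E : ℝ} {Ω : Set V} {u : ℝ → V → V}
    {p : ℝ → V → ℝ} (hν : 0 < ν) (hT : 0 < T) (h : DSl ν T E Ω u p) {T₀ κ R : ℝ} {a : V}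
    {m : ℝ → V → ℝ} (hT0 : 0 ≤ T₀) (hT₀ : T₀ < T) (hκ : 0 < κ) (hR : 0 < R)
    (hΩ : closedBall a R ⊆ Ω) (hmc : ∀ t ∈ Ioo T₀ T, Continuous (m t))
    (hm0 : ∀ t ∈ Ioo T₀ T, ∀ y, 0 ≤ m t y) (hK : Kato T₀ T a R m)
    (hc : ∀ t ∈ Ioo T₀ T, ∃ e : V, e ⬝ᵥ e = 1 ∧ ∀ y, ‖y - a‖ ≤ R → m t y < om (u t) y →
      κ * om (u t) y ≤ e ⬝ᵥ vort (u t) y) :
    ∃ B δ : ℝ, 0 < δ ∧ ∀ t ∈ Ioo 0 T, T - δ < t → ∀ x, ‖x - a‖ ≤ δ → ‖u t x‖ ≤ B := by
  have hνi : 0 < ν⁻¹ := inv_pos.2 hν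
  refine lyap_K hLy hDm hν hT h (κ := min κ 1) hT0 hT₀ (lt_min hκ one_pos) hR hΩ hmc hm0 hK
    fun t ht v hv hvt hom => ?_
  obtain ⟨e, he, hce⟩ := hc t ht
  refine ⟨vort v, fun y => e ⬝ᵥ y, lf_half (m := fun y => ν⁻¹ * m t y) hv (min_le_right _ _) he
    (continuous_const.mul ((continuous_const.mul (hmc t ht)).add continuous_const))
    (fun y => ?_) (fun y => ?_) fun y hy hmy => ?_⟩
  · have := mul_nonneg hνi.le (hm0 t ht y)
    show 0 ≤ 2 * (ν⁻¹ * m t y + 1)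
    linarith
  · show 2 * (ν⁻¹ * m t y) ≤ 2 * (ν⁻¹ * m t y + 1)
    linarith
  · rw [hom y hy] at hmy ⊢
    rw [hvt y hy, dotProduct_smul, smul_eq_mul]
    have h1 := hce y (by linarith) (lt_of_mul_lt_mul_left hmy hνi.le)
    have h2 : min κ 1 * om (u t) y ≤ e ⬝ᵥ vort (u t) y :=
      (mul_le_mul_of_nonneg_right (min_le_left _ _) (om_nnL _ _)).trans h1
    calc min κ 1 * (ν⁻¹ * om (u t) y) = ν⁻¹ * (min κ 1 * om (u t) y) := by ring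
      _ ≤ _ := mul_le_mul_of_nonneg_left h2 hνi.le

/-- The double cone condition for the balls with a vorticity above the threshold. -/
theorem dbl_K (hLy : StmLyap) (hDm : StmDom) {ν T E : ℝ} {Ω : Set V} {u : ℝ → V → V}
    {p : ℝ → V → ℝ} (hν : 0 < ν) (hT : 0 < T) (h : DSl ν T E Ω u p) {T₀ κ R : ℝ} {a : V}
    {m : ℝ → V → ℝ} (hT0 : 0 ≤ T₀) (hT₀ : T₀ < T) (hκ : 0 < κ) (hR : 0 < R)
    (hΩ : closedBall a R ⊆ Ω) (hmc : ∀ t ∈ Ioo T₀ T, Continuous (m t))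
    (hm0 : ∀ t ∈ Ioo T₀ T, ∀ y, 0 ≤ m t y) (hK : Kato T₀ T a R m)
    (hc : ∀ t ∈ Ioo T₀ T, (∃ x, ‖x - a‖ ≤ R ∧ m t x < om (u t) x) →
      ∃ e : V, e ⬝ᵥ e = 1 ∧ ∀ y, ‖y - a‖ ≤ R → κ * om (u t) y ≤ |e ⬝ᵥ vort (u t) y|) :
    ∃ B δ : ℝ, 0 < δ ∧ ∀ t ∈ Ioo 0 T, T - δ < t → ∀ x, ‖x - a‖ ≤ δ → ‖u t x‖ ≤ B := by
  have hνi : 0 < ν⁻¹ := inv_pos.2 hν
  refine lyap_K hLy hDm hν hT h (κ := min κ 1) hT0 hT₀ (lt_min hκ one_pos) hR hΩ hmc hm0 hK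
    fun t ht v hv hvt hom => ?_
  have hmc' : Continuous fun y => 2 * (ν⁻¹ * m t y + 1) :=
    continuous_const.mul ((continuous_const.mul (hmc t ht)).add continuous_const)
  have hm0' : ∀ y, 0 ≤ 2 * (ν⁻¹ * m t y + 1) := by
    intro y
    have := mul_nonneg hνi.le (hm0 t ht y)
    linarith
  by_cases hex : ∃ x, ‖x - a‖ ≤ R ∧ m t x < om (u t) x
  · obtain ⟨e, he, hce⟩ := hc t ht hex
    refine ⟨_, _, lf_dbl (e := e) hv (lt_min hκ one_pos) (by positivity) hmc' hm0'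
      ⟨he, fun y hy => ?_⟩⟩
    rw [hom y hy, hvt y hy, dotProduct_smul, smul_eq_mul, abs_mul, abs_of_pos hνi]
    have h2 : min κ 1 * om (u t) y ≤ |e ⬝ᵥ vort (u t) y| :=
      (mul_le_mul_of_nonneg_right (min_le_left _ _) (om_nnL _ _)).trans (hce y (by linarith))
    calc min κ 1 * (ν⁻¹ * om (u t) y) = ν⁻¹ * (min κ 1 * om (u t) y) := by ring
      _ ≤ _ := mul_le_mul_of_nonneg_left h2 hνi.le
  · push Not at hex
    refine ⟨_, _, lf_small hv (min_le_right _ _) hmc' hm0' fun y hy => ?_⟩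
    rw [hom y hy]
    have h1 := mul_le_mul_of_nonneg_left (hex y (by linarith)) hνi.le
    have h2 := mul_nonneg hνi.le (hm0 t ht y)
    linarith

end Pool.Agent.Q85.VL
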