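import Pool.Agent.Q85.VL.Assem
import Pool.Agent.Q85.CL.MainD
import Pool.Agent.Q85.CL.FinD

/-!
Project VL: from the local theorem to chains of vortex arcs.
-/

set_option autoImplicit false

open MeasureTheory Set Metric Filter Topology
open scoped ContDiff
open H459R3.NS Pool.Agent.W268.NS Pool.Agent.Q67.VD
open Pool.Agent.Q199.VD

namespace Pool.Agent.Q85.VL

open Pool.Agent.Q85.CC Pool.Agent.Q85.CL Pool.Agent.Q151.CC

lemma wd_mono {R S : ℝ} {a x : V} {W : V → V} (h : WD R a W) (hS : ‖x - a‖ + S ≤ R) :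
    WD S x W := by
  have hsub : closedBall x S ⊆ closedBall a R := by
    refine closedBall_subset_closedBall' ?_
    rw [dist_eq_norm]
    linarith
  refine ⟨h.cont, fun F hF hts => ?_⟩
  have h1 := h.div F hF (hts.trans hsub)
  have h0 : ∀ y, y ∉ closedBall x S → fderiv ℝ F y (W y) = 0 := by
    intro y hy
    have h2 : fderiv ℝ F y = 0 := by
      by_contra hc
      exact hy (hts (support_fderiv_subset ℝ hc))
    rw [h2]
    rfl
  have h0' : ∀ y, y ∉ closedBall a R → fderiv ℝ F y (W y) = 0 := fun y hy =>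
    h0 y fun hy' => hy (hsub hy')
  rw [setIntegral_eq_integral_of_forall_compl_eq_zero h0]
  rwa [setIntegral_eq_integral_of_forall_compl_eq_zero h0'] at h1

/-! ### Elementary properties of chains -/

lemma Arc.mono {z : V → V} {D D' : Set V} {p q : V} {l : ℝ} (h : Arc z D p q l) (hD : D ⊆ D') :
    Arc z D' p q l := by
  obtain ⟨hl, γ, h0, h1, h2⟩ := h
  exact ⟨hl, γ, h0, h1, fun s hs => ⟨hD (h2 s hs).1, (h2 s hs).2⟩⟩

lemma Chained.mono {z : V → V} {D D' : Set V} {ε ε' : ℝ} (h : Chained z D ε) (hD : D ⊆ D')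
    (hε : ε ≤ ε') : Chained z D' ε' := by
  obtain ⟨n, p, q, l, hn, hp, hA, hs⟩ := h
  refine ⟨n, p, q, l, hn, hp, fun i hi => (hA i hi).mono hD, hs.trans_le ?_⟩
  exact mul_le_mul_of_nonneg_right hε (Finset.sum_nonneg fun i hi =>
    (hA i (Finset.mem_range.1 hi)).1.le)

/-- Arcs depend only on the direction of the field. -/
lemma Arc.congr {z z' : V → V} {D : Set V} {p q : V} {l c : ℝ} (hc : 0 < c)
    (hz : ∀ y ∈ D, z' y = c • z y) (h : Arc z' D p q l) : Arc z D p q l := by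
  obtain ⟨hl, γ, h0, h1, h2⟩ := h
  refine ⟨hl, γ, h0, h1, fun s hs => ⟨(h2 s hs).1, ?_⟩⟩
  have h3 := (h2 s hs).2
  have e1 : (len (z' (γ s)))⁻¹ • z' (γ s) = (len (z (γ s)))⁻¹ • z (γ s) := by
    rw [hz _ (h2 s hs).1, len_smulI, abs_of_pos hc, smul_smul]
    congr 1
    rw [mul_inv, mul_assoc, mul_comm _ c, ← mul_assoc, inv_mul_cancel₀ hc.ne', one_mul]
  rwa [e1] at h3

lemma Chained.congr {z z' : V → V} {D : Set V} {ε c : ℝ} (hc : 0 < c)
    (hz : ∀ y ∈ D, z' y = c • z y) (h : Chained z' D ε) : Chained z D ε := by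
  obtain ⟨n, p, q, l, hn, hp, hA, hs⟩ := h
  exact ⟨n, p, q, l, hn, hp, fun i hi => (hA i hi).congr hc hz, hs⟩

/-- A function with Lipschitz constant one which increases with the rate `ε` excludes chains. -/
theorem not_chained {z : V → V} {D : Set V} {ε : ℝ} {g : V → ℝ} (hg : Differentiable ℝ g)
    (hlip : ∀ y y', |g y - g y'| ≤ len (y - y')) (hz : ∀ y ∈ D, 0 < len (z y))
    (hD : ∀ y ∈ D, ε * len (z y) ≤ fderiv ℝ g y (z y)) : ¬ Chained z D ε := by
  rintro ⟨n, p, q, l, hn, hp, hA, hs⟩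
  have harc : ∀ i < n, ε * l i ≤ g (q i) - g (p i) := by
    intro i hi
    obtain ⟨hl, γ, h0, h1, h2⟩ := hA i hi
    have hder : ∀ s ∈ Icc (0 : ℝ) (l i), HasDerivWithinAt (fun s => g (γ s) - ε * s)
        (fderiv ℝ g (γ s) ((len (z (γ s)))⁻¹ • z (γ s)) - ε) (Icc 0 (l i)) s := by
      intro s hs
      have h3 := (hg (γ s)).hasFDerivAt.comp_hasDerivWithinAt s (h2 s hs).2
      have h4 : HasDerivWithinAt (fun s : ℝ => ε * s) ε (Icc 0 (l i)) s := by
        simpa using ((hasDerivAt_id s).const_mul ε).hasDerivWithinAt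
      exact h3.sub h4
    have hmono : MonotoneOn (fun s => g (γ s) - ε * s) (Icc 0 (l i)) := by
      refine monotoneOn_of_deriv_nonneg (convex_Icc _ _)
        (fun s hs => (hder s hs).continuousWithinAt) ?_ ?_
      · intro s hs
        rw [interior_Icc] at hs
        exact ((hder s (Ioo_subset_Icc_self hs)).hasDerivAt
          (Icc_mem_nhds hs.1 hs.2)).differentiableAt.differentiableWithinAt
      · intro s hs
        rw [interior_Icc] at hs
        have hs' := Ioo_subset_Icc_self hs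
        rw [((hder s hs').hasDerivAt (Icc_mem_nhds hs.1 hs.2)).deriv, map_smul, smul_eq_mul,
          sub_nonneg]
        have h5 := hD _ (h2 s hs').1
        have h6 := hz _ (h2 s hs').1
        calc ε = (len (z (γ s)))⁻¹ * (ε * len (z (γ s))) := by field_simp
          _ ≤ _ := mul_le_mul_of_nonneg_left h5 (inv_nonneg.2 h6.le)
    have h7 := hmono ⟨le_rfl, hl.le⟩ ⟨hl.le, le_rfl⟩ hl.le
    simp only [h0, h1, mul_zero, sub_zero] at h7
    linarith
  have hsum : ∑ i ∈ Finset.range n, (g (q i) - g (p i)) ≤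
      ∑ i ∈ Finset.range n, len (p (i + 1) - q i) := by
    have h1 : ∑ i ∈ Finset.range n, (g (p (i + 1)) - g (p i)) = 0 := by
      rw [Finset.sum_range_sub (fun i => g (p i)) n, hp, sub_self]
    have h2 : ∑ i ∈ Finset.range n, (g (q i) - g (p i))
        = ∑ i ∈ Finset.range n, (g (q i) - g (p (i + 1))) +
          ∑ i ∈ Finset.range n, (g (p (i + 1)) - g (p i)) := by
      rw [← Finset.sum_add_distrib]
      exact Finset.sum_congr rfl fun i _ => by ring
    rw [h2, h1, add_zero]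
    refine Finset.sum_le_sum fun i _ => ?_
    have h3 := hlip (p (i + 1)) (q i)
    rw [abs_sub_comm] at h3
    exact (le_abs_self _).trans h3
  have h4 : ∑ i ∈ Finset.range n, ε * l i ≤ ∑ i ∈ Finset.range n, (g (q i) - g (p i)) :=
    Finset.sum_le_sum fun i hi => harc i (Finset.mem_range.1 hi)
  rw [← Finset.mul_sum] at h4
  linarith

/-! ### The Kato class -/

lemma inv_small (μ : ℝ) (hμ : 0 < μ) : ∃ S : ℝ, 0 < S ∧
    ∫ y in closedBall (0 : V) S, 1 / ‖y‖ ≤ μ := by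
  have hint : IntegrableOn (fun y : V => 1 / ‖y‖) (closedBall 0 1) := by
    have h := int_inv (0 : V) 1 (m := fun _ => 1) continuous_const
    simpa using h
  have hlim := tendsto_setIntegral_of_antitone (μ := volume) (f := fun y : V => 1 / ‖y‖)
    (s := fun n : ℕ => closedBall (0 : V) (1 / ((n : ℝ) + 1)))
    (fun n => isClosed_closedBall.measurableSet)
    (fun n k hnk => closedBall_subset_closedBall (by
      have : (n : ℝ) ≤ k := by exact_mod_cast hnk
      exact one_div_le_one_div_of_le (by positivity) (by linarith)))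
    ⟨0, by simpa using hint⟩
  have h0 : ∫ y in ⋂ n : ℕ, closedBall (0 : V) (1 / ((n : ℝ) + 1)), 1 / ‖y‖ = 0 := by
    have hsub : (⋂ n : ℕ, closedBall (0 : V) (1 / ((n : ℝ) + 1))) ⊆ {0} := by
      intro y hy
      rw [mem_iInter] at hy
      have h1 : ∀ n : ℕ, ‖y‖ ≤ 1 / ((n : ℝ) + 1) := fun n => by simpa using hy n
      have h2 : ‖y‖ ≤ 0 := ge_of_tendsto' tendsto_one_div_add_atTop_nhds_zero_nat h1
      simpa using norm_le_zero_iff.1 h2
    refine setIntegral_measure_zero _ (measure_mono_null hsub (measure_singleton _))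
  rw [h0] at hlim
  obtain ⟨n, hn⟩ := (hlim.eventually (gt_mem_nhds hμ)).exists
  exact ⟨1 / ((n : ℝ) + 1), by positivity, hn.le⟩

lemma inv_trans (x : V) (S : ℝ) :
    ∫ y in closedBall x S, 1 / ‖y - x‖ = ∫ y in closedBall (0 : V) S, 1 / ‖y‖ := by
  have h3 : MeasurePreserving (fun y : V => y - x) volume volume :=
    measurePreserving_sub_right volume x
  have h4 := h3.setIntegral_preimage_emb (MeasurableEquiv.subRight x).measurableEmbedding
    (fun y : V => 1 / ‖y‖) (closedBall (0 : V) S)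
  rw [← h4]
  congr 2
  ext y
  simp [mem_closedBall, dist_eq_norm]

/-- The remainder of the regularised function. -/
lemma kato_rem {T₀ T ν R R' : ℝ} {a : V} {m : ℝ → V → ℝ} (hν : 0 < ν) (hR : R' ≤ R)
    (hmc : ∀ t ∈ Ioo T₀ T, Continuous (m t)) (hm0 : ∀ t ∈ Ioo T₀ T, ∀ y, 0 ≤ m t y)
    (hK : Kato T₀ T a R m) :
    Kato (ν * T₀) (ν * T) a R' (fun t y => 2 * (ν⁻¹ * m (t / ν) y + 1)) := by
  intro μ hμ
  obtain ⟨S₁, hS₁, h1⟩ := hK (μ * ν / 4) (by positivity)
  obtain ⟨S₂, hS₂, h2⟩ := inv_small (μ / 4) (by positivity)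
  refine ⟨min S₁ S₂, lt_min hS₁ hS₂, fun t ht x S hS hSS hxS => ?_⟩
  have ht' : t / ν ∈ Ioo T₀ T := by
    refine ⟨?_, ?_⟩
    · rw [lt_div_iff₀ hν, mul_comm]
      exact ht.1
    · rw [div_lt_iff₀ hν, mul_comm]
      exact ht.2
  have h3 := h1 (t / ν) ht' x S hS (hSS.trans (min_le_left _ _)) (hxS.trans hR)
  have h4 : ∫ y in closedBall x S, 1 / ‖y - x‖ ≤ μ / 4 := by
    refine (kato_mono (m := fun _ => 1) continuous_const (fun _ => zero_le_one) x
      (hSS.trans (min_le_right _ _))).trans ?_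
    rw [inv_trans]
    exact h2
  have e1 : ∀ y, 2 * (ν⁻¹ * m (t / ν) y + 1) / ‖y - x‖
      = 2 * ν⁻¹ * (m (t / ν) y / ‖y - x‖) + 2 * (1 / ‖y - x‖) := by
    intro y
    ring
  simp only [e1]
  have i1 := int_inv x S (hmc _ ht')
  have i2 := int_inv x S (m := fun _ => 1) continuous_const
  rw [integral_add (i1.const_mul _) (i2.const_mul _), integral_const_mul, integral_const_mul]
  have h5 : 2 * ν⁻¹ * ∫ y in closedBall x S, m (t / ν) y / ‖y - x‖ ≤ 2 * ν⁻¹ * (μ * ν / 4) :=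
    mul_le_mul_of_nonneg_left h3 (by positivity)
  have e2 : 2 * ν⁻¹ * (μ * ν / 4) = μ / 2 := by
    field_simp
    ring
  linarith

/-! ### The theorem -/

lemma len_orient {θ : V → ℝ} {a : V} {R : ℝ} {z : V → V} (h : Orient θ a R z) (y b : V) :
    len (θ y • b) = len b := by
  rw [len_smulI]
  rcases h.1 y with h1 | h1 <;> rw [h1] <;> simp

set_option maxHeartbeats 1600000 in
/-- Chains of vortex arcs at a singular point. -/
theorem chain_D (hLy : StmLyap) (hWd : StmWd) (hG : StmG) (hMol : StmMol) (hDm : StmDom)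
    {ν T E : ℝ} {Ω : Set V} {u : ℝ → V → V} {p : ℝ → V → ℝ} (hν : 0 < ν) (h : DSl ν T E Ω u p)
    {a : V} (ha : a ∈ Ω) (hs : Sing T u a) {T₀ ε R : ℝ} {m : ℝ → V → ℝ} (hT0 : 0 ≤ T₀)
    (hT₀ : T₀ < T) (hε : 0 < ε) (hR : 0 < R) (hmc : ∀ t ∈ Ioo T₀ T, Continuous (m t))
    (hm0 : ∀ t ∈ Ioo T₀ T, ∀ y, 0 ≤ m t y) (hK : Kato T₀ T a R m) :
    ∃ t ∈ Ioo T₀ T, ∀ θ : V → ℝ, Orient θ a R (vort (u t)) →
      Chained (fun y => θ y • vort (u t) y) {y | ‖y - a‖ ≤ R ∧ m t y < om (u t) y} ε := by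
  by_contra hcon
  push Not at hcon
  obtain ⟨R', hR', hRR, hsub⟩ := small_ball h.openO ha hR
  obtain ⟨E', v, q, hL, hv⟩ := hDm ν T E Ω u p hν hs.pos h a R' hR' hsub
  obtain ⟨ε', hε'd⟩ : ∃ ε', ε' = min ε 1 := ⟨_, rfl⟩
  have hε' : 0 < ε' := by rw [hε'd]; exact lt_min hε one_pos
  have hε'1 : ε' ≤ 1 := by rw [hε'd]; exact min_le_right _ _
  have hε'ε : ε' ≤ ε := by rw [hε'd]; exact min_le_left _ _
  have hνi : 0 < ν⁻¹ := inv_pos.2 hν
  refine hs.not_bdd (back hν hR' hs.pos hv (hLy (ν * T) E' (ball a R') v q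
    (mul_pos hν hs.pos) hL (ν * T₀) (ε' / 2) (R' / 4) a (fun t y => 2 * (ν⁻¹ * m (t / ν) y + 1))
    (by positivity) (mul_lt_mul_of_pos_left hT₀ hν) (by positivity) (by positivity)
    (closedBall_subset_ball (by linarith)) (kato_rem hν (by linarith) hmc hm0 hK) ?_))
  intro t' ht'
  have hνt : 0 < t' := (by positivity : 0 ≤ ν * T₀).trans_lt ht'.1
  have hI' : t' ∈ Ioo 0 (ν * T) := ⟨hνt, ht'.2⟩
  have ht : t' / ν ∈ Ioo T₀ T := by
    refine ⟨?_, ?_⟩
    · rw [lt_div_iff₀ hν, mul_comm]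
      exact ht'.1
    · rw [div_lt_iff₀ hν, mul_comm]
      exact ht'.2
  have hI : t' / ν ∈ Ioo 0 T := ⟨by positivity, ht.2⟩
  have htν : ν * (t' / ν) = t' := by field_simp
  obtain ⟨t, htd⟩ : ∃ t, t = t' / ν := ⟨_, rfl⟩
  obtain ⟨θ, hθ, hnc⟩ := hcon _ ht
  rw [← htd] at ht hI htν hθ hnc ⊢
  have hsm : SM (v t') := slice_u hL.toLEq hI'
  have hev : ∀ y, ‖y - a‖ ≤ R' / 2 → ∀ᶠ z in 𝓝 y, v t' z = ν⁻¹ • u t z := by
    intro y hy
    refine ball_ev (a := a) (R := R') (fun z hz => ?_) (by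
      rw [Metric.mem_ball, dist_eq_norm]
      linarith)
    rw [← hv _ hI z hz, htν]
  have hvt : ∀ y, ‖y - a‖ ≤ R' / 2 → vort (v t') y = ν⁻¹ • vort (u t) y := fun y hy =>
    vort_evD (hev y hy)
  have hom : ∀ y, ‖y - a‖ ≤ R' / 2 → om (v t') y = ν⁻¹ * om (u t) y := fun y hy =>
    om_evD hνi.le (hev y hy)
  have hθ' : Orient θ a (R' / 2) (vort (v t')) := by
    refine ⟨hθ.1, hθ.2.mono ?_⟩
    rintro y ⟨hy1, hy2⟩
    refine ⟨by linarith, fun h0 => hy2 ?_⟩
    rw [hvt y hy1, h0, smul_zero]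
  have hnc' : ¬ Chained (fun y => θ y • vort (v t') y)
      {y | ‖y - a‖ ≤ R' / 2 ∧ ν⁻¹ * m t y < om (v t') y} ε' := by
    intro hc
    have hc2 : Chained (fun y => θ y • vort (u t) y)
        {y | ‖y - a‖ ≤ R' / 2 ∧ ν⁻¹ * m t y < om (v t') y} ε' := by
      refine hc.congr hνi fun y hy => ?_
      rw [hvt y hy.1, smul_comm]
    refine hnc (hc2.mono ?_ hε'ε)
    rintro y ⟨hy1, hy2⟩
    refine ⟨by linarith, ?_⟩
    rw [hom y hy1] at hy2
    exact lt_of_mul_lt_mul_left hy2 hνi.le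
  obtain ⟨g, hg1, hg2⟩ := hG _ _ a (R' / 2) ε' (fun y hy => hy.1) hε' hnc'
  obtain ⟨G, hGs, hGl, hGm⟩ := hMol (v t') θ (fun y => ν⁻¹ * m t y) g a (R' / 2) ε' hsm
    (by positivity) hε' hε'1 (continuous_const.mul (hmc t ht))
    (fun y => mul_nonneg hνi.le (hm0 t ht y)) hθ' hg1 hg2
  obtain ⟨W, hW, hWe⟩ := hWd (v t') θ a (R' / 2) hsm (by positivity) hθ'
  refine ⟨W, G, wd_mono hW (by rw [sub_self, norm_zero]; linarith), om_contL hsm,
    continuous_const.mul ((continuous_const.mul (hmc t ht)).add continuous_const),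
    fun y => ?_, fun y hy => ?_, hGs, hGl, fun y hy => ?_⟩
  · have := mul_nonneg hνi.le (hm0 t ht y)
    show 0 ≤ 2 * (ν⁻¹ * m t y + 1)
    linarith
  · rw [mem_closedBall, dist_eq_norm] at hy
    rw [hWe y (by linarith), len_orient hθ']
    exact le_rfl
  · rw [mem_closedBall, dist_eq_norm] at hy
    rw [hWe y (by linarith)]
    exact hGm y (by linarith)

end Pool.Agent.Q85.VL
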