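import Pool.Agent.Q151.CC.Flux
import Pool.Agent.Q85.CL.Defs4
import Pool.Agent.Q85.CL.Blow

/-!
Project VL (helper85): vortex chains. Definitions and statements of the parts.

`V = Fin 3 → ℝ` has the maximum norm (`closedBall x r` is a cube with side `2 r`), `len` is the
Euclidean length, `vort v` the vorticity and `om v` its length.
-/

set_option autoImplicit false

open MeasureTheory Set Metric
open scoped ContDiff
open H459R3.NS Pool.Agent.W268.NS Pool.Agent.Q67.VD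

namespace Pool.Agent.Q85.VL

open Pool.Agent.Q85.CC Pool.Agent.Q85.CL Pool.Agent.Q151.CC

/-! ### Chains of arcs -/

/-- `Arc z D p q l`: an arc from `p` to `q` with length `l` of the curves of the field `z`, inside of
the set `D` (the tangent vector is the unit vector `z / |z|`). -/
def Arc (z : V → V) (D : Set V) (p q : V) (l : ℝ) : Prop :=
  0 < l ∧ ∃ γ : ℝ → V, γ 0 = p ∧ γ l = q ∧ ∀ s ∈ Icc (0 : ℝ) l, γ s ∈ D ∧
    HasDerivWithinAt γ ((len (z (γ s)))⁻¹ • z (γ s)) (Icc 0 l) s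

/-- There is a closed chain of arcs inside of `D`: the total length of the gaps between the
consecutive arcs is less than `ε` times the total length of the arcs. -/
def Chained (z : V → V) (D : Set V) (ε : ℝ) : Prop :=
  ∃ (n : ℕ) (p q : ℕ → V) (l : ℕ → ℝ), 0 < n ∧ p n = p 0 ∧ (∀ i < n, Arc z D (p i) (q i) (l i)) ∧
    ∑ i ∈ Finset.range n, len (p (i + 1) - q i) < ε * ∑ i ∈ Finset.range n, l i

/-- `θ` is an orientation of the nonzero vectors of the field `z` in the cube with centre `a` and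
side `2 R`. -/
def Orient (θ : V → ℝ) (a : V) (R : ℝ) (z : V → V) : Prop :=
  (∀ y, θ y = 1 ∨ θ y = -1) ∧ ContinuousOn θ {y | ‖y - a‖ ≤ R ∧ z y ≠ 0}

/-! ### Functions which increase along the curves of a field -/

/-- The continuous field `W` is weakly free of divergence in the cube with centre `x` and side
`2 R`, `|W| ≤ f`, and the function `g` with Lipschitz constant one increases with the rate `κ` along
the curves of `W`, up to the remainder `m`. -/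
structure LF (κ R : ℝ) (x : V) (f m : V → ℝ) (W : V → V) (g : V → ℝ) : Prop where
  wd : WD R x W
  fc : Continuous f
  mc : Continuous m
  m0 : ∀ y, 0 ≤ m y
  up : ∀ y ∈ closedBall x R, len (W y) ≤ f y
  gs : ContDiff ℝ 1 g
  lip : ∀ y z, |g y - g z| ≤ len (y - z)
  lo : ∀ y ∈ closedBall x R, κ * f y ≤ fderiv ℝ g y (W y) + m y

/-- The smooth step: `0` on `(-∞, 0]`, `1` on `[1, ∞)`, continuously differentiable. -/
noncomputable def stp (s : ℝ) : ℝ := 3 * (max 0 (min 1 s)) ^ 2 - 2 * (max 0 (min 1 s)) ^ 3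

/-- The derivative of `stp`; `0 ≤ stp' ≤ 2`. -/
noncomputable def stp' (s : ℝ) : ℝ := 6 * max 0 (min 1 s) * (1 - max 0 (min 1 s))

/-- The smooth Euclidean distance from `x`. -/
noncomputable def ds (x : V) (ρ : ℝ) (y : V) : ℝ := √((y - x) ⬝ᵥ (y - x) + ρ ^ 2)

/-- `u = g - g(x) - (κ / 2) |y - x|`. -/
noncomputable def uu (κ ρ : ℝ) (g : V → ℝ) (x y : V) : ℝ := g y - g x - κ / 2 * ds x ρ y

/-- `w = g - g(x) - (3 κ / 4) |y - x|`. -/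
noncomputable def ww (κ ρ : ℝ) (g : V → ℝ) (x y : V) : ℝ := g y - g x - 3 * κ / 4 * ds x ρ y

/-- The cut-off function `Θ_r`: `0` for `w ≤ -κ r / 8`, `1` for `w ≥ -κ r / 16`. -/
noncomputable def TT (κ ρ : ℝ) (g : V → ℝ) (x : V) (r : ℝ) (y : V) : ℝ :=
  stp ((ww κ ρ g x y + κ * r / 8) / (κ * r / 16))

/-- The function `Ψ_r`: `0` for `u ≤ κ r / 64`, `1` for `u ≥ κ r / 32`. -/
noncomputable def PS (κ ρ : ℝ) (g : V → ℝ) (x : V) (r : ℝ) (y : V) : ℝ :=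
  stp ((uu κ ρ g x y - κ * r / 64) / (κ * r / 64))

/-- The density of the flux: `Θ_r ψ_r (∇u · W + m)` with `ψ_r = stp' ((u - κ r / 64) / (κ r / 64)) /
(κ r / 64)`. -/
noncomputable def pr (κ ρ : ℝ) (g : V → ℝ) (x : V) (W : V → V) (m : V → ℝ) (r : ℝ) (y : V) : ℝ :=
  TT κ ρ g x r y * (stp' ((uu κ ρ g x y - κ * r / 64) / (κ * r / 64)) / (κ * r / 64) *
    (fderiv ℝ (uu κ ρ g x) y (W y) + m y))

/-- The flux at the scale `r`. -/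
noncomputable def AA (κ ρ R : ℝ) (g : V → ℝ) (x : V) (W : V → V) (m : V → ℝ) (r : ℝ) : ℝ :=
  ∫ y in closedBall x R, pr κ ρ g x W m r y

/-- A shell around the surface of a cube. -/
def Shell (x : V) (s w : ℝ) : Set V := {y | |‖y - x‖ - s| ≤ w}

/-- The remainder is small at all the scales (a discrete Kato condition). -/
def KS (R : ℝ) (x : V) (m : V → ℝ) (μ : ℝ) : Prop :=
  ∀ n : ℕ, ∑ j ∈ Finset.range n,
    ((1 / 256 : ℝ) ^ j * R)⁻¹ * ∫ y in closedBall x ((1 / 256 : ℝ) ^ j * R), m y ≤ μ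

/-! ### Statements at a fixed time -/

/-- VL-1. The smooth step and the smooth distance. -/
def StmBas : Prop :=
  (∀ s, HasDerivAt stp (stp' s) s) ∧ ContDiff ℝ 1 stp ∧ Continuous stp' ∧ Monotone stp ∧
  (∀ s, 0 ≤ stp s ∧ stp s ≤ 1 ∧ 0 ≤ stp' s ∧ stp' s ≤ 2) ∧ (∀ s, s ≤ 0 → stp s = 0) ∧
  (∀ s, 1 ≤ s → stp s = 1) ∧ (∀ s, stp' s ≠ 0 → 0 < s ∧ s < 1) ∧ (∀ s, stp s ≠ 0 → 0 < s) ∧
  (∀ s, stp s ≠ 1 → s < 1) ∧
  ∀ (x : V) (ρ : ℝ), 0 < ρ → ContDiff ℝ ∞ (ds x ρ) ∧ (∀ y, len (y - x) ≤ ds x ρ y) ∧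
    (∀ y, ρ ≤ ds x ρ y) ∧ (∀ y, ds x ρ y ≤ len (y - x) + ρ) ∧ (∀ y, ‖y - x‖ ≤ ds x ρ y) ∧
    (∀ y, ‖y - x‖ ≤ ρ → ds x ρ y ≤ 2 * ρ) ∧
    (∀ y z, |ds x ρ y - ds x ρ z| ≤ len (y - z)) ∧ ∀ y n, |fderiv ℝ (ds x ρ) y n| ≤ len n

/-- VL-2. The flux is bounded by the integral of `f`. -/
def StmUB : Prop := ∀ (κ ρ R r : ℝ) (x : V) (f m : V → ℝ) (W : V → V) (g : V → ℝ), 0 < κ → κ ≤ 1 →
  0 < ρ → LF κ R x f m W g → 0 < r → r ≤ R →
    AA κ ρ R g x W m r ≤ 128 / (κ * r) * ∫ y in closedBall x r, (2 * f y + m y)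

/-- VL-3. Comparison of two scales. -/
def StmCmp : Prop := ∀ (κ ρ R r r' : ℝ) (x : V) (f m : V → ℝ) (W : V → V) (g : V → ℝ), 0 < κ →
  κ ≤ 1 → 0 < ρ → LF κ R x f m W g → 0 < r' → r' ≤ r / 2 → r ≤ R →
    AA κ ρ R g x W m r' ≤ AA κ ρ R g x W m r + 256 / (κ * r') * ∫ y in closedBall x r, m y

/-- VL-4. The lower bound of the flux near a concentration of `f`. -/
def StmLB : Prop := ∀ (κ ρ R r : ℝ) (x : V) (f m : V → ℝ) (W : V → V) (g : V → ℝ), 0 < κ →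
  κ ≤ 1 → 0 < ρ → LF κ R x f m W g → 128 / κ * ρ ≤ r → r ≤ R →
    2 * κ * ρ * ∫ y in closedBall x ρ, f y
      ≤ (κ * r / 8) ^ 2 * AA κ ρ R g x W m r + κ * r / 4 * ∫ y in closedBall x r, m y

/-- VL-5. The flux leaves the cube `‖y - x‖ ≤ s` through the part `u > 0` of its surface. -/
def StmFC : Prop := ∀ (κ ρ R r s w : ℝ) (x : V) (f m : V → ℝ) (W : V → V) (g : V → ℝ), 0 < κ →
  κ ≤ 1 → 0 < ρ → LF κ R x f m W g → 0 < r → r ≤ s → 0 < w → w ≤ s / 4 → s + w ≤ R →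
    AA κ ρ R g x W m r ≤ 2 / w * (∫ y in Shell x s w ∩ {y | 0 < uu κ ρ g x y}, f y)
      + 256 / (κ * r) * ∫ y in closedBall x (s + w), m y

/-- VL-6. Two families of curves: near a point `z` of the surface `‖y - x‖ = s` with
`u(z) = - 4 β r` the integral of `f` is bounded by the difference of the fluxes at the scales `r`
and `r / 256`. Here `σ = 1 / 64`, `β = κ / 65536`. -/
def StmTF : Prop := ∀ (κ ρ R r s : ℝ) (x z : V) (f m : V → ℝ) (W : V → V) (g : V → ℝ), 0 < κ →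
  κ ≤ 1 → 0 < ρ → LF κ R x f m W g → 0 < r → r ≤ R → ρ ≤ r / 64 → r / 64 ≤ s → s ≤ r / 32 →
  ‖z - x‖ = s → uu κ ρ g x z = -(4 * (κ / 65536) * r) →
    ∫ y in closedBall z (κ / 524288 * r), f y
      ≤ r / 512 * (AA κ ρ R g x W m r - AA κ ρ R g x W m (r / 256))
        + 1024 / κ * ∫ y in closedBall x r, m y

/-- VL-7. The bound of the integrals over small cubes. -/
def StmMorV : Prop := ∀ κ : ℝ, 0 < κ → κ ≤ 1 → ∃ C c : ℝ, 0 < C ∧ 0 < c ∧ c ≤ 1 ∧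
  ∀ (R μ : ℝ) (x : V) (f m : V → ℝ) (W : V → V) (g : V → ℝ), 0 < R → LF κ R x f m W g →
    KS R x m μ → ∀ r, 0 < r → r ≤ c * R →
      ∫ y in closedBall x r, f y ≤ C * ((∫ y in closedBall x R, f y) / R + μ) * r

/-- VL-8. The pinching lemma. -/
def StmPinV : Prop := ∀ κ : ℝ, 0 < κ → κ ≤ 1 → ∃ b c : ℝ, 0 < b ∧ b ≤ 1 ∧ 0 < c ∧ c ≤ 1 ∧
  ∀ K η τ : ℝ, 0 ≤ K → 0 < η → η ≤ 1 → 0 < τ → τ ≤ 1 → ∃ N : ℕ,
    ∀ (R ρ : ℝ) (x : V) (f m : V → ℝ) (W : V → V) (g : V → ℝ), 0 < R → LF κ R x f m W g →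
      ∫ y in closedBall x R, f y ≤ K * R → KS R x m (c * η * τ) →
      0 < ρ → ρ ≤ (1 / 256) ^ N * R → η * ρ ≤ ∫ y in closedBall x ρ, f y →
        ∃ k < N, ∀ s : ℝ, (1 / 256) ^ k * (R / 4) / 64 ≤ s → s ≤ (1 / 256) ^ k * (R / 4) / 32 →
          (∃ z, ‖z - x‖ = s ∧ ∫ y in closedBall z (b * ((1 / 256) ^ k * (R / 4))), f y
            ≤ τ * ((1 / 256) ^ k * (R / 4))) ∧
          ∀ w : ℝ, 0 < w → w ≤ s / 4 → c * η * w ≤ ∫ y in Shell x s w, f y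

/-- VL-9. The discrete Kato condition follows from the Kato condition. -/
def StmKS : Prop := ∀ (R : ℝ) (x : V) (m : V → ℝ) (μ : ℝ), 0 < R → Continuous m → (∀ y, 0 ≤ m y) →
  ∫ y in closedBall x R, m y / ‖y - x‖ ≤ μ → KS R x m (2 * μ)

/-- VL-10. Analytic continuation along the surface of a cube. -/
def StmAnaS : Prop := ∀ c h ε b : ℝ, 1 ≤ c → 0 < h → h ≤ 1 → 0 < ε → 0 < b → ∃ τ w₀ : ℝ, 0 < τ ∧
  0 < w₀ ∧ w₀ ≤ h ∧ ∀ (v : V → V) (x z : V) (r s : ℝ), SM v → 0 < r → r / 64 ≤ s → s ≤ r / 32 →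
    (∀ y, ‖y - x‖ = s → Gd c (h * r) v y) → ‖z - x‖ = s →
    ∫ y in closedBall z (b * r), om v y ≤ τ * r → ∀ y, |‖y - x‖ - s| ≤ w₀ * r → om v y ≤ ε / r ^ 2

/-- VL-11. For an orientation `θ` of the vorticity the field `θ ω` is weakly free of divergence. -/
def StmWd : Prop := ∀ (v : V → V) (θ : V → ℝ) (a : V) (R : ℝ), SM v → 0 < R →
  Orient θ a R (vort v) → ∃ W : V → V, WD R a W ∧ ∀ y, ‖y - a‖ ≤ R → W y = θ y • vort v y

/-- VL-12. Without a closed chain there is a function which increases along the arcs. -/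
def StmG : Prop := ∀ (z : V → V) (D : Set V) (a : V) (R ε : ℝ), (∀ y ∈ D, ‖y - a‖ ≤ R) → 0 < ε →
  ¬ Chained z D ε → ∃ g : V → ℝ, (∀ y y', |g y - g y'| ≤ len (y - y')) ∧
    ∀ p q l, Arc z D p q l → g p + ε * l ≤ g q

/-- VL-13. Regularisation of this function. -/
def StmMol : Prop := ∀ (v : V → V) (θ m g : V → ℝ) (a : V) (R ε : ℝ), SM v → 0 < R → 0 < ε →
  ε ≤ 1 → Continuous m → (∀ y, 0 ≤ m y) → Orient θ a R (vort v) →
  (∀ y y', |g y - g y'| ≤ len (y - y')) →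
  (∀ p q l, Arc (fun y => θ y • vort v y) {y | ‖y - a‖ ≤ R ∧ m y < om v y} p q l →
    g p + ε * l ≤ g q) →
    ∃ G : V → ℝ, ContDiff ℝ 1 G ∧ (∀ y y', |G y - G y'| ≤ len (y - y')) ∧
      ∀ y, ‖y - a‖ ≤ R / 2 →
        ε / 2 * om v y ≤ fderiv ℝ G y (θ y • vort v y) + 2 * (m y + 1)

/-! ### Solutions -/

/-- VL-14. A cube surface of good points. -/
def StmGoodS : Prop := ∃ c : ℝ, 1 ≤ c ∧ ∀ K C₁ : ℝ, 0 ≤ K → 0 ≤ C₁ →
  ∃ h L : ℝ, 0 < h ∧ h ≤ 1 ∧ 1 ≤ L ∧ ∀ (T E : ℝ) (O : Set V) (u : ℝ → V → V) (p : ℝ → V → ℝ),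
    0 < T → LSl T E O u p → ∀ (a : V) (ρ₀ : ℝ), 0 < ρ₀ → closedBall a ρ₀ ⊆ O →
    ∃ r₀ : ℝ, 0 < r₀ ∧ ∀ (t r : ℝ) (x : V), 0 < r → r ≤ r₀ → T / 2 ≤ t → t < T →
      ‖x - a‖ ≤ ρ₀ / 2 →
      (∀ τ ∈ Ioo (t - L * r ^ 2) t, ∀ y ∈ closedBall x (ρ₀ / 4), ∀ ρ ∈ Ioc 0 r,
        ‖W221.NS.mol ρ u τ y‖ ≤ K / ρ) →
      (∀ y ∈ closedBall x (ρ₀ / 4), ∀ ρ ∈ Ioc 0 (L * r),
        ∫ τ in Ioo (t - ρ ^ 2) t, W221.NS.B2 y ρ (u τ) ≤ C₁ * ρ) →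
        ∃ s ∈ Icc (r / 64) (r / 32), ∀ y, ‖y - x‖ = s → Gd c (h * r) (u t) y

/-- The remainders belong to the Kato class, uniformly in the time. -/
def Kato (T₀ T : ℝ) (a : V) (R : ℝ) (m : ℝ → V → ℝ) : Prop :=
  ∀ μ : ℝ, 0 < μ → ∃ S₀ : ℝ, 0 < S₀ ∧ ∀ t ∈ Ioo T₀ T, ∀ (x : V) (S : ℝ), 0 < S → S ≤ S₀ →
    ‖x - a‖ + S ≤ R → ∫ y in closedBall x S, m t y / ‖y - x‖ ≤ μ

/-- The local theorem (viscosity one). -/
def StmLyap : Prop := ∀ (T E : ℝ) (O : Set V) (u : ℝ → V → V) (p : ℝ → V → ℝ), 0 < T →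
  LSl T E O u p → ∀ (T₀ κ R : ℝ) (a : V) (m : ℝ → V → ℝ), 0 ≤ T₀ → T₀ < T → 0 < κ → 0 < R →
    closedBall a R ⊆ O → Kato T₀ T a R m →
    (∀ t ∈ Ioo T₀ T, ∃ (W : V → V) (g : V → ℝ), LF κ R a (om (u t)) (m t) W g) →
    ∃ B δ : ℝ, 0 < δ ∧ ∀ t ∈ Ioo (T - δ) T, 0 < t → ∀ x ∈ closedBall a δ, ‖u t x‖ ≤ B

end Pool.Agent.Q85.VL
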