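import Pool.Agent.Q85.VL.SingK
import Pool.Agent.Q85.VL.Fin
import Pool.Agent.Q85.CL.All
import Pool.Agent.Q182.VL.Bas
import Pool.Agent.Q182.VL.Cmp
import Pool.Agent.Q182.VL.G
import Pool.Agent.Q225.VL.LB
import Pool.Agent.Q16.VL.FC
import Pool.Agent.Q98.VL.Mor
import Pool.Agent.Q71.VL.AnaS
import Pool.Agent.Q15.VL.Wd
import Pool.Agent.Q95.VL.GoodS
import Pool.Agent.Q81.VL.TF2
import Pool.Agent.Q61.VL.PinV
import Pool.Agent.Q61.VL.Mol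
import Pool.Agent.Q224.VL.Ex
import Pool.Agent.Q225.CL.An1

/-!
Project VL: all the parts together.
-/

set_option autoImplicit false

open MeasureTheory Set Metric Filter Topology
open H459R3.NS Pool.Agent.W268.NS Pool.Agent.Q67.VD

namespace Pool.Agent.Q85.VL

open Pool.Agent.Q85.CC Pool.Agent.Q85.CL

theorem stmLB : StmLB := Pool.Agent.Q225.VL.stmLB Pool.Agent.Q182.VL.stmBas

theorem stmCmp : StmCmp := Pool.Agent.Q182.VL.stmCmp Pool.Agent.Q182.VL.stmBas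

theorem stmFC : StmFC := Pool.Agent.Q16.VL.fc Pool.Agent.Q182.VL.stmBas

theorem stmMorV : StmMorV := Pool.Agent.Q98.VL.morV Pool.Agent.Q182.VL.stmUB stmCmp stmLB

theorem stmPinV : StmPinV :=
  Pool.Agent.Q61.VL.pinV Pool.Agent.Q182.VL.stmUB stmCmp stmLB stmFC Pool.Agent.Q81.VL.stmTF

theorem stmLyap : StmLyap :=
  lyap Pool.Agent.Q284.CL.velL stmEnL stmEnS Pool.Agent.Q95.CL.regK Pool.Agent.Q81.CL.l1L
    Pool.Agent.Q95.VL.goodS Pool.Agent.Q71.VL.anaS stmMorV stmPinV ks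

/-- Chains of vortex arcs at a singular point. -/
theorem chain {ν T E : ℝ} {Ω : Set V} {u : ℝ → V → V} {p : ℝ → V → ℝ} (hν : 0 < ν)
    (h : DSl ν T E Ω u p) {a : V} (ha : a ∈ Ω) (hs : Sing T u a) {T₀ ε R : ℝ} {m : ℝ → V → ℝ}
    (hT0 : 0 ≤ T₀) (hT₀ : T₀ < T) (hε : 0 < ε) (hR : 0 < R) (hm : Thr T₀ T a R m) :
    ∃ t ∈ Ioo T₀ T, ∀ θ : V → ℝ, Orient θ a R (vort (u t)) →
      Chained (fun y => θ y • vort (u t) y) {y | ‖y - a‖ ≤ R ∧ m t y < om (u t) y} ε :=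
  chain_D stmLyap Pool.Agent.Q15.VL.wd Pool.Agent.Q182.VL.stmG Pool.Agent.Q61.VL.task_Mol
    Pool.Agent.Q284.CL.dom hν h ha hs hT0 hT₀ hε hR hm.cont hm.nonneg hm.kato

end Pool.Agent.Q85.VL
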