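import Pool.Agent.Q85.VL.All

/-!
Project VL/LV: the local theorem for fields which are close to the vorticity: the field `W` of the
structure `LF` satisfies `|W| ≤ f` where `|ω| ≤ f ≤ |ω| + m`, `m` in the Kato class.
-/

set_option autoImplicit false

open MeasureTheory Set Metric Filter Topology
open scoped ContDiff
open H459R3.NS Pool.Agent.W268.NS Pool.Agent.Q67.VD

namespace Pool.Agent.Q85.VL

open Pool.Agent.Q85.CC Pool.Agent.Q85.CL Pool.Agent.Q151.CC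

/-- The local theorem (viscosity one) for fields which are close to the vorticity. -/
def StmLyapF : Prop := ∀ (T E : ℝ) (O : Set V) (u : ℝ → V → V) (p : ℝ → V → ℝ), 0 < T →
  LSl T E O u p → ∀ (T₀ κ R : ℝ) (a : V) (m : ℝ → V → ℝ), 0 ≤ T₀ → T₀ < T → 0 < κ → 0 < R →
    closedBall a R ⊆ O → Kato T₀ T a R m →
    (∀ t ∈ Ioo T₀ T, ∃ (f : V → ℝ) (W : V → V) (g : V → ℝ), LF κ R a f (m t) W g ∧
      ∀ y ∈ closedBall a R, om (u t) y ≤ f y ∧ f y ≤ om (u t) y + m t y) →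
    ∃ B δ : ℝ, 0 < δ ∧ ∀ t ∈ Ioo (T - δ) T, 0 < t → ∀ x ∈ closedBall a δ, ‖u t x‖ ≤ B

/-- The outcome of the pinching argument, with a lower bound for the width of the shells. -/
def Pin3 (T₀ T : ℝ) (a : V) (ρ₀ : ℝ) (u : ℝ → V → V) : Prop :=
  ∃ b c : ℝ, 0 < b ∧ 0 < c ∧ c ≤ 1 ∧
    ∀ η τ w₀ : ℝ, 0 < η → η ≤ 1 → 0 < τ → τ ≤ 1 → 0 < w₀ → ∃ (N : ℕ) (S₀ : ℝ), 0 < S₀ ∧
      ∀ t ∈ Ioo T₀ T, ∀ x ∈ closedBall a (ρ₀ / 2), ∀ S ρ : ℝ, 0 < S → S ≤ S₀ → 0 < ρ →
        ρ ≤ (1 / 256) ^ N * S → η * ρ ≤ ∫ y in closedBall x ρ, om (u t) y →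
        ∃ k < N, ∀ s : ℝ, (1 / 256) ^ k * (S / 4) / 64 ≤ s → s ≤ (1 / 256) ^ k * (S / 4) / 32 →
          (∃ z, ‖z - x‖ = s ∧ ∫ y in closedBall z (b * ((1 / 256) ^ k * (S / 4))), om (u t) y
            ≤ τ * ((1 / 256) ^ k * (S / 4))) ∧
          ∀ w : ℝ, w₀ * ((1 / 256) ^ k * (S / 4)) ≤ w → w ≤ s / 4 →
            c * η * w ≤ ∫ y in Shell x s w, om (u t) y

lemma ks_one {R : ℝ} {x : V} {m : V → ℝ} {μ : ℝ} (h : KS R x m μ) (hR : 0 < R) :
    ∫ y in closedBall x R, m y ≤ μ * R := by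
  have h1 := h 1
  rw [Finset.sum_range_one, pow_zero, one_mul, inv_mul_le_iff₀ hR] at h1
  linarith

lemma ks_term {R : ℝ} {x : V} {m : V → ℝ} {μ : ℝ} (h : KS R x m μ) (hR : 0 < R)
    (_hm : Continuous m) (h0 : ∀ y, 0 ≤ m y) (k : ℕ) :
    ∫ y in closedBall x ((1 / 256 : ℝ) ^ k * R), m y ≤ ((1 / 256 : ℝ) ^ k * R) * μ := by
  have h1 := h (k + 1)
  rw [Finset.sum_range_succ] at h1
  have h2 : 0 ≤ ∑ j ∈ Finset.range k,
      ((1 / 256 : ℝ) ^ j * R)⁻¹ * ∫ y in closedBall x ((1 / 256 : ℝ) ^ j * R), m y :=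
    Finset.sum_nonneg fun j _ => mul_nonneg (by positivity) (integral_nonneg fun y => h0 y)
  have h3 : ((1 / 256 : ℝ) ^ k * R)⁻¹ * ∫ y in closedBall x ((1 / 256 : ℝ) ^ k * R), m y ≤ μ := by
    linarith
  rwa [inv_mul_le_iff₀ (by positivity)] at h3

lemma int_f_le {v : V → V} (hv : SM v) {m f : V → ℝ} (hm : Continuous m) (hf : Continuous f)
    {x : V} {R : ℝ} (h : ∀ y ∈ closedBall x R, f y ≤ om v y + m y) :
    ∫ y in closedBall x R, f y ≤ (∫ y in closedBall x R, om v y) + ∫ y in closedBall x R, m y := by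
  have hio : IntegrableOn (om v) (closedBall x R) :=
    (om_contL hv).continuousOn.integrableOn_compact (isCompact_closedBall _ _)
  have him : IntegrableOn m (closedBall x R) :=
    hm.continuousOn.integrableOn_compact (isCompact_closedBall _ _)
  rw [← integral_add hio him]
  exact setIntegral_mono_on (hf.continuousOn.integrableOn_compact (isCompact_closedBall _ _))
    (hio.add him) measurableSet_closedBall h

set_option maxHeartbeats 1600000 in
theorem assemF (hVel : StmVelL) (hEn : StmEnL) (hEnS : StmEnS) (hReg : Pool.Agent.Q95.CL.StmRegK)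
    (hGood : StmGoodS) (hAna : StmAnaS) {T E : ℝ} {O : Set V} {u : ℝ → V → V} {p : ℝ → V → ℝ}
    (hT : 0 < T) (hu : LSl T E O u p) {T₀ K ρ₀ : ℝ} {a : V} (hT₀ : 0 ≤ T₀) (hT₀T : T₀ < T)
    (hK : 0 < K) (hρ₀ : 0 < ρ₀) (hO : closedBall a ρ₀ ⊆ O)
    (hMor : ∀ t ∈ Ioo T₀ T, MorB K a ρ₀ (om (u t))) (hP : Pin3 T₀ T a ρ₀ u) :
    ∃ B δ : ℝ, 0 < δ ∧ ∀ t ∈ Ioo (T - δ) T, 0 < t → ∀ x ∈ closedBall a δ, ‖u t x‖ ≤ B := by
  obtain ⟨CV, hCV, hVel⟩ := hVel
  obtain ⟨cG, hcG, hGood⟩ := hGood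
  by_contra hcon
  have hIoo : ∀ t ∈ Ioo T₀ T, t ∈ Ioo 0 T := fun t ht => ⟨hT₀.trans_lt ht.1, ht.2⟩
  have hE0 : 0 ≤ E := by
    have h1 : (T₀ + T) / 2 ∈ Ioo 0 T := ⟨by linarith, by linarith⟩
    exact (integral_nonneg fun y => nsq_nnL _ _).trans (hu.en _ h1)
  -- the dissipation
  obtain ⟨C₁, r₁, hC₁, hr₁, hdis⟩ := hEn T E O u p hT hu T₀ K ρ₀ a hT₀ hT₀T hK hρ₀ hO hMor
  -- the mollified velocity
  obtain ⟨KV, hKVd⟩ : ∃ KV, KV = CV * (K + √(E / ρ₀ ^ 3)) := ⟨_, rfl⟩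
  have hKV : 0 ≤ KV := by rw [hKVd]; positivity
  have hmol : ∀ τ ∈ Ioo T₀ T, ∀ y, ‖y - a‖ ≤ ρ₀ / 2 → ∀ ρ, 0 < ρ → ρ ≤ ρ₀ / 4 → ρ ≤ 1 →
      ‖W221.NS.mol ρ u τ y‖ ≤ KV / ρ := by
    intro τ hτ y hy ρ hρ hρR hρ1
    have hτI := hIoo τ hτ
    rw [pi_norm_le_iff_of_nonneg (by positivity)]
    intro i
    have h1 := (hVel (u τ) a K ρ₀ ρ (slice_u hu.toLEq hτI)
      (fun x hx => hu.divfree τ hτI x (hO (ball_subset_closedBall hx))) hK.le hρ hρR
      (hMor τ hτ) y hy i).2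
    rw [Real.norm_eq_abs]
    refine h1.trans ?_
    rw [hKVd, mul_div_assoc]
    refine mul_le_mul_of_nonneg_left ?_ hCV.le
    rw [add_div]
    have henb : ∫ z in closedBall a ρ₀, W221.NS.nsq (u τ) z ≤ E :=
      (setIntegral_mono_set (hu.en_int τ hτI) (Eventually.of_forall fun y => nsq_nnL _ _)
        hO.eventuallyLE).trans (hu.en τ hτI)
    have h2 : √((∫ z in closedBall a ρ₀, W221.NS.nsq (u τ) z) / ρ₀ ^ 3) ≤ √(E / ρ₀ ^ 3) :=
      Real.sqrt_le_sqrt (div_le_div_of_nonneg_right henb (by positivity))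
    have h3 : √(E / ρ₀ ^ 3) ≤ √(E / ρ₀ ^ 3) / ρ := by
      rw [le_div_iff₀ hρ]
      exact mul_le_of_le_one_right (Real.sqrt_nonneg _) hρ1
    linarith
  obtain ⟨ε, hε, hReg⟩ := hReg KV hKV
  obtain ⟨cS, hcS, hSmall⟩ := hEnS ε hε
  -- the constants of the parts
  obtain ⟨b, cP, hb, hcP, hcP1, hPin⟩ := hP
  obtain ⟨h, L, hh, hh1, hL, hGood⟩ := hGood KV C₁ hKV hC₁
  obtain ⟨r₀, hr₀, hGood⟩ := hGood T E O u p hT hu a ρ₀ hρ₀ hO
  obtain ⟨η, hηd⟩ : ∃ η, η = min cS 1 := ⟨_, rfl⟩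
  have hη : 0 < η := by rw [hηd]; exact lt_min hcS one_pos
  have hη1 : η ≤ 1 := by rw [hηd]; exact min_le_right _ _
  have hηc : η ≤ cS := by rw [hηd]; exact min_le_left _ _
  obtain ⟨τ, w₀, hτ, hw₀, hw₀h, hAna⟩ := hAna cG h (8 * cP * η) b hcG hh hh1 (by positivity) hb
  obtain ⟨τ', hτ'd⟩ : ∃ τ', τ' = min τ 1 := ⟨_, rfl⟩
  have hτ' : 0 < τ' := by rw [hτ'd]; exact lt_min hτ one_pos
  have hτ'1 : τ' ≤ 1 := by rw [hτ'd]; exact min_le_right _ _
  have hτ'τ : τ' ≤ τ := by rw [hτ'd]; exact min_le_left _ _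
  obtain ⟨w₁, hw₁d⟩ : ∃ w₁, w₁ = min w₀ (1 / 256) := ⟨_, rfl⟩
  have hw₁ : 0 < w₁ := by rw [hw₁d]; exact lt_min hw₀ (by norm_num)
  have hw₁1 : w₁ ≤ w₀ := by rw [hw₁d]; exact min_le_left _ _
  have hw₁2 : w₁ ≤ 1 / 256 := by rw [hw₁d]; exact min_le_right _ _
  obtain ⟨N, S₀, hS₀, hPin⟩ := hPin η τ' w₁ hη hη1 hτ' hτ'1 hw₁
  -- the large scale
  have hL0 : 0 < L := by linarith
  obtain ⟨S, hSd⟩ : ∃ S, S = min (min S₀ (min (ρ₀ / 4) 1)) (min r₀ (min (r₁ / L)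
    ((T - T₀) / (2 * L)))) := ⟨_, rfl⟩
  have hS : 0 < S := by
    rw [hSd]
    refine lt_min (lt_min hS₀ (lt_min (by positivity) one_pos)) (lt_min hr₀ (lt_min (by positivity)
      ?_))
    exact div_pos (by linarith) (by positivity)
  have hS0 : S ≤ S₀ := by rw [hSd]; exact (min_le_left _ _).trans (min_le_left _ _)
  have hS1 : S ≤ ρ₀ / 4 := by
    rw [hSd]; exact (min_le_left _ _).trans ((min_le_right _ _).trans (min_le_left _ _))
  have hSle1 : S ≤ 1 := by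
    rw [hSd]; exact (min_le_left _ _).trans ((min_le_right _ _).trans (min_le_right _ _))
  have hS2 : S ≤ r₀ := by rw [hSd]; exact (min_le_right _ _).trans (min_le_left _ _)
  have hS3 : S ≤ r₁ / L := by
    rw [hSd]; exact (min_le_right _ _).trans ((min_le_right _ _).trans (min_le_left _ _))
  have hS4 : S ≤ (T - T₀) / (2 * L) := by
    rw [hSd]; exact (min_le_right _ _).trans ((min_le_right _ _).trans (min_le_right _ _))
  -- concentration
  obtain ⟨ρ', hρ'd⟩ : ∃ ρ', ρ' = min ((1 / 256) ^ N * S) (ρ₀ / 4) := ⟨_, rfl⟩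
  have hρ' : 0 < ρ' := by rw [hρ'd]; exact lt_min (by positivity) (by positivity)
  have hρ'1 : ρ' ≤ (1 / 256) ^ N * S := by rw [hρ'd]; exact min_le_left _ _
  have hρ'2 : ρ' ≤ ρ₀ / 4 := by rw [hρ'd]; exact min_le_right _ _
  obtain ⟨T₁, hT₁d⟩ : ∃ T₁, T₁ = max ((T₀ + T) / 2) (T / 2) := ⟨_, rfl⟩
  have hT₁1 : (T₀ + T) / 2 ≤ T₁ := by rw [hT₁d]; exact le_max_left _ _
  have hT₁2 : T / 2 ≤ T₁ := by rw [hT₁d]; exact le_max_right _ _
  have hT₁T : T₁ < T := by rw [hT₁d]; exact max_lt (by linarith) (by linarith)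
  have hex : ∃ t, T₁ < t ∧ t < T ∧ ∃ x ρ, 0 < ρ ∧ ‖x - a‖ + ρ ≤ ρ' ∧
      η * ρ ≤ ∫ y in closedBall x ρ, om (u t) y := by
    by_contra hno
    push Not at hno
    obtain ⟨r₂, hr₂, hsm⟩ := hSmall T E O u p hT hu T₁ ρ' a (by linarith) hT₁T hρ'
      ((closedBall_subset_closedBall (by linarith)).trans hO) (by
        intro t ht x r hr hxr
        have h1 := hno t ht.1 ht.2 x r hr hxr
        rw [abs_omL]
        exact h1.le.trans (mul_le_mul_of_nonneg_right hηc hr.le))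
    obtain ⟨r₃, hr₃d⟩ : ∃ r₃, r₃ = min r₂ (min (ρ₀ / 4) 1) := ⟨_, rfl⟩
    have hr₃ : 0 < r₃ := by rw [hr₃d]; exact lt_min hr₂ (lt_min (by positivity) one_pos)
    have hr₃2 : r₃ ≤ r₂ := by rw [hr₃d]; exact min_le_left _ _
    have hr₃3 : r₃ ≤ ρ₀ / 4 := by rw [hr₃d]; exact (min_le_right _ _).trans (min_le_left _ _)
    have hr₃4 : r₃ ≤ 1 := by rw [hr₃d]; exact (min_le_right _ _).trans (min_le_right _ _)
    obtain ⟨B, δ, hδ, hbd⟩ := hReg T E O u p hT hu ((T₁ + T) / 2) r₃ (ρ' / 2) a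
      (by linarith) (by linarith) hr₃ (by positivity)
      ((closedBall_subset_closedBall (by linarith)).trans hO)
      (fun t ht x hx r hr => hmol t ⟨by linarith [ht.1], ht.2⟩ x (by
        rw [mem_closedBall, dist_eq_norm] at hx
        linarith) r hr.1 (hr.2.trans hr₃3) (hr.2.trans hr₃4))
      (fun t ht x hx r hr => hsm t ht x hx r ⟨hr.1, hr.2.trans hr₃2⟩)
    refine hcon ⟨B, min δ (ρ' / 4), lt_min hδ (by positivity), fun t ht ht0 x hx => ?_⟩
    refine hbd t ⟨?_, ht.2⟩ ht0 x (closedBall_subset_closedBall ?_ hx)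
    · linarith [ht.1, min_le_left δ (ρ' / 4)]
    · linarith [min_le_right δ (ρ' / 4)]
  obtain ⟨t, ht1, ht2, x, ρ, hρ, hxρ, hconc⟩ := hex
  have htT : t ∈ Ioo T₀ T := ⟨by linarith, ht2⟩
  have hxa : ‖x - a‖ ≤ ρ₀ / 4 := by linarith
  have hρρ' : ρ ≤ ρ' := by linarith [norm_nonneg (x - a)]
  have hsm := slice_u hu.toLEq (hIoo t htT)
  -- the cone
  obtain ⟨k, hk, hpin⟩ := hPin t htT x (by
    rw [mem_closedBall, dist_eq_norm]
    linarith) S ρ hS hS0 hρ (hρρ'.trans hρ'1) hconc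
  -- the scale
  obtain ⟨r, hrd⟩ : ∃ r, r = (1 / 256) ^ k * (S / 4) := ⟨_, rfl⟩
  rw [← hrd] at hpin
  have hr : 0 < r := by rw [hrd]; positivity
  have hrS : r ≤ S := by
    rw [hrd]
    have h1 : (1 / 256 : ℝ) ^ k ≤ 1 := pow_le_one₀ (by norm_num) (by norm_num)
    have h2 : (1 / 256) ^ k * (S / 4) ≤ 1 * (S / 4) := mul_le_mul_of_nonneg_right h1 (by positivity)
    linarith
  have hr1 : r ≤ 1 := hrS.trans hSle1
  have hLr : L * r ≤ r₁ := by
    rw [le_div_iff₀ hL0] at hS3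
    have h2 : L * r ≤ L * S := mul_le_mul_of_nonneg_left hrS hL0.le
    linarith
  have hLr2 : L * r ^ 2 ≤ (T - T₀) / 2 := by
    rw [le_div_iff₀ (by positivity)] at hS4
    have h1 : r ^ 2 ≤ r := pow_le_of_le_one hr.le hr1 two_ne_zero
    have h2 : L * r ^ 2 ≤ L * S := mul_le_mul_of_nonneg_left (h1.trans hrS) hL0.le
    linarith
  have hball : ∀ y ∈ closedBall x (ρ₀ / 4), ‖y - a‖ ≤ ρ₀ / 2 := by
    intro y hy
    have h1 : ‖y - a‖ ≤ ‖y - x‖ + ‖x - a‖ := by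
      have e1 : y - a = (y - x) + (x - a) := by abel
      rw [e1]
      exact norm_add_le _ _
    rw [mem_closedBall, dist_eq_norm] at hy
    linarith
  obtain ⟨s, hs, hgd⟩ := hGood t r x hr (hrS.trans hS2) (by linarith) ht2 (by linarith)
    (fun τ hτ y hy ρ hρ => hmol τ ⟨by linarith [hτ.1], hτ.2.trans ht2⟩ y (hball y hy) ρ hρ.1
      (hρ.2.trans (hrS.trans hS1)) (hρ.2.trans hr1))
    (fun y hy ρ hρ => hdis t ⟨by linarith, ht2⟩ y (by
      rw [mem_closedBall, dist_eq_norm]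
      exact hball y hy) ρ ⟨hρ.1, hρ.2.trans hLr⟩)
  -- the shell
  have hs0 : 0 < s := lt_of_lt_of_le (by positivity) hs.1
  obtain ⟨w, hwd⟩ : ∃ w, w = min (w₀ * r) (s / 4) := ⟨_, rfl⟩
  have hw : 0 < w := by rw [hwd]; exact lt_min (by positivity) (by positivity)
  have hw1 : w ≤ w₀ * r := by rw [hwd]; exact min_le_left _ _
  have hw2 : w ≤ s / 4 := by rw [hwd]; exact min_le_right _ _
  obtain ⟨⟨z, hz, hquiet⟩, hflux⟩ := hpin s hs.1 hs.2
  have hww : w₁ * r ≤ w := by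
    rw [hwd]
    refine le_min (mul_le_mul_of_nonneg_right hw₁1 hr.le) ?_
    have h1 : w₁ * r ≤ 1 / 256 * r := mul_le_mul_of_nonneg_right hw₁2 hr.le
    linarith [hs.1]
  have hflux := hflux w hww hw2
  have hsml := hAna (u t) x z r s hsm hr hs.1 hs.2 hgd hz
    (hquiet.trans (mul_le_mul_of_nonneg_right hτ'τ hr.le))
  have hvol := vol_shell x s w hw hw2
  have hfin : volume (Shell x s w) < ⊤ := hvol.trans_lt ENNReal.ofReal_lt_top
  have hint : ∫ y in Shell x s w, om (u t) y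
      ≤ 8 * cP * η / r ^ 2 * (volume (Shell x s w)).toReal := by
    have h1 := norm_setIntegral_le_of_norm_le_const (μ := volume) (s := Shell x s w)
      (f := om (u t)) (C := 8 * cP * η / r ^ 2) hfin
      (fun y hy => by
        rw [Real.norm_eq_abs, abs_of_nonneg (om_nnL _ _)]
        exact hsml y (le_trans hy hw1))
    exact (Real.le_norm_self _).trans h1
  have hvr : (volume (Shell x s w)).toReal ≤ 64 * s ^ 2 * w :=
    ENNReal.toReal_le_of_le_ofReal (by positivity) hvol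
  have hs2 : s ^ 2 ≤ (r / 32) ^ 2 := pow_le_pow_left₀ hs0.le hs.2 2
  have hvr2 : (volume (Shell x s w)).toReal ≤ r ^ 2 * w / 16 := by
    refine hvr.trans ?_
    have h1 : 64 * s ^ 2 * w ≤ 64 * (r / 32) ^ 2 * w := by gcongr
    refine h1.trans (le_of_eq ?_)
    ring
  have hfinal : ∫ y in Shell x s w, om (u t) y ≤ cP * η * w / 2 := by
    refine hint.trans ((mul_le_mul_of_nonneg_left hvr2 (by positivity)).trans (le_of_eq ?_))
    field_simp
    ring
  have hpos : 0 < cP * η * w := by positivity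
  linarith

set_option maxHeartbeats 1600000 in
theorem lyapF (hVel : StmVelL) (hEn : StmEnL) (hEnS : StmEnS) (hReg : Pool.Agent.Q95.CL.StmRegK)
    (hL1 : StmL1L) (hGood : StmGoodS) (hAna : StmAnaS) (hMorV : StmMorV) (hPinV : StmPinV)
    (hKS : StmKS) : StmLyapF := by
  intro T E O u p hT hu T₀ κ₀ R₀ a m hT₀ hT₀T hκ₀ hR₀ hO hm hLF₀
  obtain ⟨κ, hκd⟩ : ∃ κ, κ = min κ₀ 1 := ⟨_, rfl⟩
  have hκ : 0 < κ := by rw [hκd]; exact lt_min hκ₀ one_pos
  have hκ1 : κ ≤ 1 := by rw [hκd]; exact min_le_right _ _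
  have hκκ : κ ≤ κ₀ := by rw [hκd]; exact min_le_left _ _
  obtain ⟨R, hRd⟩ : ∃ R, R = min R₀ 1 := ⟨_, rfl⟩
  have hR : 0 < R := by rw [hRd]; exact lt_min hR₀ one_pos
  have hR1 : R ≤ 1 := by rw [hRd]; exact min_le_right _ _
  have hRR : R ≤ R₀ := by rw [hRd]; exact min_le_left _ _
  obtain ⟨T₁, hT₁⟩ : ∃ T₁, T₁ = (T₀ + T) / 2 := ⟨_, rfl⟩
  have hT₁0 : 0 < T₁ := by rw [hT₁]; linarith
  have hT₁T : T₁ < T := by rw [hT₁]; linarith
  have hT₀₁ : T₀ < T₁ := by rw [hT₁]; linarith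
  have hIoo : ∀ t ∈ Ioo T₁ T, t ∈ Ioo 0 T := fun t ht => ⟨hT₁0.trans ht.1, ht.2⟩
  have hIoo' : ∀ t ∈ Ioo T₁ T, t ∈ Ioo T₀ T := fun t ht => ⟨hT₀₁.trans ht.1, ht.2⟩
  -- the fields around the neighbouring points
  have hsubR : ∀ x S, ‖x - a‖ + S ≤ R → closedBall x S ⊆ closedBall a R₀ := by
    intro x S hS
    refine closedBall_subset_closedBall' ?_
    rw [dist_eq_norm]
    linarith
  have hLF : ∀ t ∈ Ioo T₁ T, ∀ x S, ‖x - a‖ + S ≤ R →
      ∃ (f : V → ℝ) (W : V → V) (g : V → ℝ), LF κ S x f (m t) W g ∧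
        ∀ y ∈ closedBall x S, om (u t) y ≤ f y ∧ f y ≤ om (u t) y + m t y := by
    intro t ht x S hS
    obtain ⟨f, W, g, h, hf⟩ := hLF₀ t (hIoo' t ht)
    exact ⟨f, W, g, h.mono hκκ (by linarith), fun y hy => hf y (hsubR x S hS hy)⟩
  have hmc : ∀ t ∈ Ioo T₁ T, Continuous (m t) ∧ ∀ y, 0 ≤ m t y := by
    intro t ht
    obtain ⟨f, W, g, h, -⟩ := hLF₀ t (hIoo' t ht)
    exact ⟨h.mc, h.m0⟩
  -- the remainder
  have hKm : ∀ μ : ℝ, 0 < μ → ∃ S : ℝ, 0 < S ∧ ∀ t ∈ Ioo T₁ T, ∀ x, ‖x - a‖ ≤ R / 2 →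
      ∀ S', 0 < S' → S' ≤ S → KS S' x (m t) μ := by
    intro μ hμ
    obtain ⟨S, hS, hKm⟩ := hm (μ / 2) (by positivity)
    refine ⟨min S (R / 2), lt_min hS (by positivity), fun t ht x hx S' hS' hSS => ?_⟩
    obtain ⟨f, W, g, h, -⟩ := hLF₀ t (hIoo' t ht)
    have h1 := hKm t (hIoo' t ht) x S' hS' (hSS.trans (min_le_left _ _))
      (by linarith [hSS.trans (min_le_right S (R / 2))])
    have h2 := hKS S' x (m t) (μ / 2) hS' h.mc h.m0 h1
    rwa [mul_div_cancel₀ _ (two_ne_zero' ℝ)] at h2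
  -- the Morrey bound
  obtain ⟨L, hL, hL1⟩ := hL1 T E O u p hT hu a R T₁ hR
    ((closedBall_subset_closedBall hRR).trans hO) hT₁0 hT₁T
  obtain ⟨S₁, hS₁, hKS₁⟩ := hKm 1 one_pos
  obtain ⟨C, c, hC, hc, hc1, hMorV⟩ := hMorV κ hκ hκ1
  obtain ⟨R', hR'd⟩ : ∃ R', R' = min S₁ (R / 4) := ⟨_, rfl⟩
  have hR' : 0 < R' := by rw [hR'd]; exact lt_min hS₁ (by positivity)
  have hR'1 : R' ≤ S₁ := by rw [hR'd]; exact min_le_left _ _
  have hR'2 : R' ≤ R / 4 := by rw [hR'd]; exact min_le_right _ _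
  obtain ⟨K, hKd⟩ : ∃ K, K = C * (L / R' + 2) := ⟨_, rfl⟩
  have hK : 0 < K := by rw [hKd]; positivity
  obtain ⟨ρ₀, hρd⟩ : ∃ ρ₀, ρ₀ = c * R' := ⟨_, rfl⟩
  have hρ₀ : 0 < ρ₀ := by rw [hρd]; positivity
  have hρR : ρ₀ ≤ R' := by
    rw [hρd]
    exact mul_le_of_le_one_left hR'.le hc1
  have hMor : ∀ t ∈ Ioo T₁ T, MorB K a ρ₀ (om (u t)) := by
    intro t ht x r hr hxr
    have hx : ‖x - a‖ ≤ R / 4 := by linarith
    obtain ⟨f, W, g, hW, hf⟩ := hLF t ht x R' (by linarith)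
    have hsm := slice_u hu.toLEq (hIoo t ht)
    have hKS₂ := hKS₁ t ht x (by linarith) R' hR' hR'1
    have h1 := hMorV R' 1 x f (m t) W g hR' hW hKS₂ r hr
      (by rw [← hρd]; linarith [norm_nonneg (x - a)])
    rw [abs_omL]
    have hrR' : r ≤ R' := by linarith [norm_nonneg (x - a)]
    have h0 : ∫ y in closedBall x r, om (u t) y ≤ ∫ y in closedBall x r, f y := by
      refine setIntegral_mono_on ((om_contL hsm).continuousOn.integrableOn_compact
        (isCompact_closedBall _ _)) (hW.fc.continuousOn.integrableOn_compact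
        (isCompact_closedBall _ _)) measurableSet_closedBall fun y hy => ?_
      exact (hf y (closedBall_subset_closedBall hrR' hy)).1
    refine h0.trans (h1.trans (mul_le_mul_of_nonneg_right ?_ hr.le))
    have hfo := int_f_le hsm (hmc t ht).1 hW.fc fun y hy => (hf y hy).2
    have hmk := ks_one hKS₂ hR'
    have h2 : ∫ y in closedBall x R', om (u t) y ≤ ∫ y in closedBall a (R / 2), om (u t) y := by
      refine setIntegral_mono_set ((om_contL hsm).continuousOn.integrableOn_compact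
        (isCompact_closedBall _ _)) (Eventually.of_forall fun y => om_nnL _ _) ?_
      refine (closedBall_subset_closedBall' ?_).eventuallyLE
      rw [dist_eq_norm]
      linarith
    have h3 := h2.trans (hL1 t ⟨ht.1.le, ht.2⟩)
    rw [hKd]
    have h4 : (∫ y in closedBall x R', f y) / R' ≤ L / R' + 1 := by
      rw [div_add' _ _ _ hR'.ne', div_le_div_iff_of_pos_right hR']
      linarith
    exact mul_le_mul_of_nonneg_left (by linarith) hC.le
  refine assemF hVel hEn hEnS hReg hGood hAna hT hu hT₁0.le hT₁T hK hρ₀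
    ((closedBall_subset_closedBall (by linarith)).trans hO) hMor ?_
  -- the pinching argument
  obtain ⟨b, c', hb, hb1, hc', hc'1, hPin⟩ := hPinV κ hκ hκ1
  refine ⟨b, c' / 2, hb, by positivity, by linarith, fun η τ w₀ hη hη1 hτ hτ1 hw₀ => ?_⟩
  obtain ⟨N, hPin⟩ := hPin (K + 1) η τ (by positivity) hη hη1 hτ hτ1
  obtain ⟨μ, hμd⟩ : ∃ μ, μ = min (min (c' * η * τ) (c' * η * w₀ / 8)) 1 := ⟨_, rfl⟩
  have hμ : 0 < μ := by
    rw [hμd]
    exact lt_min (lt_min (by positivity) (by positivity)) one_pos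
  have hμ1 : μ ≤ c' * η * τ := by
    rw [hμd]; exact (min_le_left _ _).trans (min_le_left _ _)
  have hμ2 : μ ≤ c' * η * w₀ / 8 := by
    rw [hμd]; exact (min_le_left _ _).trans (min_le_right _ _)
  have hμ3 : μ ≤ 1 := by rw [hμd]; exact min_le_right _ _
  obtain ⟨S₂, hS₂, hKS₂⟩ := hKm μ hμ
  refine ⟨N, min S₂ (ρ₀ / 2), lt_min hS₂ (by positivity),
    fun t ht x hx S ρ hS hSS hρ hρS hconc => ?_⟩
  have hxa : ‖x - a‖ ≤ ρ₀ / 2 := by
    have := mem_closedBall.1 hx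
    rwa [dist_eq_norm] at this
  have hS2 : S ≤ S₂ := hSS.trans (min_le_left _ _)
  have hS3 : S ≤ ρ₀ / 2 := hSS.trans (min_le_right _ _)
  have hsm := slice_u hu.toLEq (hIoo t ht)
  obtain ⟨f, W, g, hW, hf⟩ := hLF t ht x S (by linarith)
  have hks := hKS₂ t ht x (by linarith) S hS hS2
  have h1 := hMor t ht x S hS (by linarith)
  rw [abs_omL] at h1
  have hmk := ks_one hks hS
  have h2 : ∫ y in closedBall x S, f y ≤ (K + 1) * S := by
    have h3 := int_f_le hsm (hmc t ht).1 hW.fc fun y hy => (hf y hy).2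
    have h4 : μ * S ≤ 1 * S := mul_le_mul_of_nonneg_right hμ3 hS.le
    linarith
  have hN1 : (1 / 256 : ℝ) ^ N ≤ 1 := pow_le_one₀ (by norm_num) (by norm_num)
  have hρS' : ρ ≤ S := hρS.trans (mul_le_of_le_one_left hS.le hN1)
  have h3 : η * ρ ≤ ∫ y in closedBall x ρ, f y := by
    refine hconc.trans ?_
    refine setIntegral_mono_on ((om_contL hsm).continuousOn.integrableOn_compact
      (isCompact_closedBall _ _)) (hW.fc.continuousOn.integrableOn_compact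
      (isCompact_closedBall _ _)) measurableSet_closedBall fun y hy => ?_
    exact (hf y (closedBall_subset_closedBall hρS' hy)).1
  obtain ⟨k, hk, hs⟩ := hPin S ρ x f (m t) W g hS hW h2 (fun n => (hks n).trans hμ1) hρ hρS h3
  refine ⟨k, hk, fun s hs1 hs2 => ?_⟩
  obtain ⟨⟨z, hz, hzq⟩, hsh⟩ := hs s hs1 hs2
  obtain ⟨r, hrd⟩ : ∃ r, r = (1 / 256) ^ k * (S / 4) := ⟨_, rfl⟩
  rw [← hrd] at hs1 hs2 hzq ⊢
  have hr : 0 < r := by rw [hrd]; positivity
  have hk1 : (1 / 256 : ℝ) ^ k ≤ 1 := pow_le_one₀ (by norm_num) (by norm_num)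
  have hrS : 4 * r ≤ S := by
    have h5 : (1 / 256) ^ k * (S / 4) ≤ 1 * (S / 4) := mul_le_mul_of_nonneg_right hk1 (by positivity)
    linarith
  refine ⟨⟨z, hz, le_trans ?_ hzq⟩, fun w hw1 hw2 => ?_⟩
  · refine setIntegral_mono_on ((om_contL hsm).continuousOn.integrableOn_compact
      (isCompact_closedBall _ _)) (hW.fc.continuousOn.integrableOn_compact
      (isCompact_closedBall _ _)) measurableSet_closedBall fun y hy => ?_
    refine (hf y ?_).1
    rw [mem_closedBall, dist_eq_norm] at hy ⊢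
    have h5 : ‖y - x‖ ≤ ‖y - z‖ + ‖z - x‖ := by
      have e1 : y - x = (y - z) + (z - x) := by abel
      rw [e1]
      exact norm_add_le _ _
    have h6 : b * r ≤ 1 * r := mul_le_mul_of_nonneg_right hb1 hr.le
    linarith
  · have hw : 0 < w := lt_of_lt_of_le (by positivity) hw1
    have h5 := hsh w hw hw2
    have hShm : MeasurableSet (Shell x s w) := by
      refine measurableSet_le ?_ measurable_const
      fun_prop
    have hsub : Shell x s w ⊆ closedBall x (4 * r) := by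
      intro y hy
      have hy' : |‖y - x‖ - s| ≤ w := hy
      rw [abs_le] at hy'
      rw [mem_closedBall, dist_eq_norm]
      linarith
    have hio : IntegrableOn (om (u t)) (Shell x s w) :=
      ((om_contL hsm).continuousOn.integrableOn_compact (isCompact_closedBall _ _)).mono_set hsub
    have him : IntegrableOn (m t) (Shell x s w) :=
      ((hmc t ht).1.continuousOn.integrableOn_compact (isCompact_closedBall _ _)).mono_set hsub
    have hif : IntegrableOn f (Shell x s w) :=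
      (hW.fc.continuousOn.integrableOn_compact (isCompact_closedBall _ _)).mono_set hsub
    have h6 : ∫ y in Shell x s w, f y ≤
        (∫ y in Shell x s w, om (u t) y) + ∫ y in Shell x s w, m t y := by
      rw [← integral_add hio him]
      refine setIntegral_mono_on hif (hio.add him) hShm fun y hy => ?_
      exact (hf y (closedBall_subset_closedBall hrS (hsub hy))).2
    have h7 : ∫ y in Shell x s w, m t y ≤ 4 * r * μ := by
      refine (setIntegral_mono_set ((hmc t ht).1.continuousOn.integrableOn_compact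
        (isCompact_closedBall x (4 * r))) (Eventually.of_forall fun y => (hmc t ht).2 y)
        hsub.eventuallyLE).trans ?_
      have h8 := ks_term hks hS (hmc t ht).1 (hmc t ht).2 k
      have e1 : (1 / 256 : ℝ) ^ k * S = 4 * r := by rw [hrd]; ring
      rw [e1] at h8
      linarith
    have h9 : 4 * r * μ ≤ c' / 2 * η * w := by
      calc 4 * r * μ ≤ 4 * r * (c' * η * w₀ / 8) := by gcongr
        _ = c' / 2 * η * (w₀ * r) := by ring
        _ ≤ c' / 2 * η * w := by gcongr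
    linarith

/-- The local theorem for fields which are close to the vorticity, without hypotheses. -/
theorem stmLyapF : StmLyapF :=
  lyapF Pool.Agent.Q284.CL.velL stmEnL stmEnS Pool.Agent.Q95.CL.regK Pool.Agent.Q81.CL.l1L
    Pool.Agent.Q95.VL.goodS Pool.Agent.Q71.VL.anaS stmMorV stmPinV ks

end Pool.Agent.Q85.VL
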