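import Pool.Agent.Q85.VL.Defs

/-!
Project VL: the Kato condition.
-/

set_option autoImplicit false

open MeasureTheory Set Metric Filter Topology
open scoped ContDiff
open H459R3.NS Pool.Agent.W268.NS Pool.Agent.Q67.VD

namespace Pool.Agent.Q85.VL

lemma int_inv0 (r : ℝ) : IntegrableOn (fun y : V => ‖y‖⁻¹) (ball 0 r) := by
  have h := (integrableOn_fun_norm_addHaar (volume : Measure V) (f := fun s : ℝ => s⁻¹) (r := r)).2 (by
    have h1 : Module.finrank ℝ V = 3 := by simp [V]
    rw [h1]
    have h2 : IntegrableOn (fun y : ℝ => y) (Ioo 0 r) :=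
      (continuous_id.integrableOn_Icc (a := 0) (b := r)).mono_set Ioo_subset_Icc_self
    refine h2.congr_fun (fun y hy => ?_) measurableSet_Ioo
    have hy0 : y ≠ 0 := hy.1.ne'
    simp only [smul_eq_mul]
    field_simp)
  exact h

lemma int_inv (x : V) (S : ℝ) {m : V → ℝ} (hm : Continuous m) :
    IntegrableOn (fun y => m y / ‖y - x‖) (closedBall x S) := by
  have h1 : IntegrableOn (fun y : V => ‖y - x‖⁻¹) (closedBall x S) := by
    have h2 := int_inv0 (S + 1)
    have h3 : MeasurePreserving (fun y : V => y - x) volume volume :=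
      measurePreserving_sub_right volume x
    have h4 := (h3.integrableOn_comp_preimage (MeasurableEquiv.subRight x).measurableEmbedding
      (s := ball (0 : V) (S + 1)) (f := fun y : V => ‖y‖⁻¹)).2 h2
    refine h4.mono_set fun y hy => ?_
    rw [mem_closedBall, dist_eq_norm] at hy
    rw [mem_preimage, mem_ball, dist_zero_right]
    linarith
  obtain ⟨C, hC⟩ := ((isCompact_closedBall x S).image hm).isBounded.exists_norm_le
  have h5 : IntegrableOn (fun y => C * ‖y - x‖⁻¹) (closedBall x S) := h1.const_mul C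
  refine h5.mono' ?_ ?_
  · exact (hm.measurable.div (measurable_id.sub_const x).norm).aestronglyMeasurable
  · refine (ae_restrict_iff' isClosed_closedBall.measurableSet).2 (Eventually.of_forall
      fun y hy => ?_)
    rw [norm_div, norm_norm, div_eq_mul_inv]
    exact mul_le_mul_of_nonneg_right (hC _ (mem_image_of_mem _ hy)) (inv_nonneg.2 (norm_nonneg _))

lemma kint_nn {m : V → ℝ} (hm : ∀ y, 0 ≤ m y) (x y : V) : 0 ≤ m y / ‖y - x‖ :=
  div_nonneg (hm y) (norm_nonneg _)

/-- The Kato integral increases with the cube. -/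
lemma kato_mono {m : V → ℝ} (hm : Continuous m) (h0 : ∀ y, 0 ≤ m y) (x : V) {S S' : ℝ}
    (h : S' ≤ S) : ∫ y in closedBall x S', m y / ‖y - x‖ ≤ ∫ y in closedBall x S, m y / ‖y - x‖ :=
  setIntegral_mono_set (int_inv x S hm) (Eventually.of_forall fun y => kint_nn h0 x y)
    (closedBall_subset_closedBall h).eventuallyLE

lemma geo_all (n : ℕ) {R : ℝ} (hR : 0 < R) :
    ∑ j ∈ Finset.range n, ((1 / 256 : ℝ) ^ j * R)⁻¹ ≤ 256 ^ n / (255 * R) := by
  induction n with
  | zero =>
    simp only [Finset.range_zero, Finset.sum_empty]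
    positivity
  | succ n ih =>
    rw [Finset.sum_range_succ]
    have e1 : ((1 / 256 : ℝ) ^ n * R)⁻¹ = 256 ^ n / R := by
      rw [one_div, inv_pow, mul_inv, inv_inv]
      ring
    rw [e1]
    have e2 : (256 : ℝ) ^ (n + 1) / (255 * R) = 256 ^ n / (255 * R) + 256 ^ n / R := by
      rw [pow_succ]
      field_simp
      norm_num
    linarith

/-- The geometric sum. -/
lemma geo_sum (n : ℕ) {R t : ℝ} (hR : 0 < R) (ht : 0 < t) :
    ∑ j ∈ Finset.range n, (if t ≤ (1 / 256 : ℝ) ^ j * R then ((1 / 256 : ℝ) ^ j * R)⁻¹ else 0)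
      ≤ 2 / t := by
  induction n with
  | zero =>
    simp only [Finset.range_zero, Finset.sum_empty]
    positivity
  | succ n ih =>
    by_cases hc : t ≤ (1 / 256 : ℝ) ^ n * R
    · have h1 : ∑ j ∈ Finset.range (n + 1),
          (if t ≤ (1 / 256 : ℝ) ^ j * R then ((1 / 256 : ℝ) ^ j * R)⁻¹ else 0)
          ≤ ∑ j ∈ Finset.range (n + 1), ((1 / 256 : ℝ) ^ j * R)⁻¹ := by
        refine Finset.sum_le_sum fun j _ => ?_
        have h0 : 0 ≤ ((1 / 256 : ℝ) ^ j * R)⁻¹ := by positivity
        split_ifs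
        · exact le_rfl
        · exact h0
      refine (h1.trans (geo_all (n + 1) hR)).trans ?_
      have h2 : (256 : ℝ) ^ n * t ≤ R := by
        have h3 := mul_le_mul_of_nonneg_left hc (by positivity : (0 : ℝ) ≤ 256 ^ n)
        have e3 : (256 : ℝ) ^ n * ((1 / 256) ^ n * R) = R := by
          rw [← mul_assoc, ← mul_pow]
          norm_num
        linarith
      rw [div_le_div_iff₀ (by positivity) ht, pow_succ]
      nlinarith
    · rw [Finset.sum_range_succ, if_neg hc, add_zero]
      exact ih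

theorem ks : StmKS := by
  intro R x m μ hR hm h0 hμ n
  have hint : ∀ r, IntegrableOn m (closedBall x r) := fun r =>
    hm.continuousOn.integrableOn_compact (isCompact_closedBall x r)
  have hle : ∀ j : ℕ, (1 / 256 : ℝ) ^ j * R ≤ R := fun j =>
    mul_le_of_le_one_left hR.le (pow_le_one₀ (by norm_num) (by norm_num))
  have h1 : ∀ j : ℕ, ((1 / 256 : ℝ) ^ j * R)⁻¹ * ∫ y in closedBall x ((1 / 256 : ℝ) ^ j * R), m y
      = ∫ y in closedBall x R, (closedBall x ((1 / 256 : ℝ) ^ j * R)).indicator
          (fun y => ((1 / 256 : ℝ) ^ j * R)⁻¹ * m y) y := by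
    intro j
    rw [setIntegral_indicator isClosed_closedBall.measurableSet,
      inter_eq_self_of_subset_right (closedBall_subset_closedBall (hle j)), integral_const_mul]
  have hI : ∀ j : ℕ, IntegrableOn (fun y => (closedBall x ((1 / 256 : ℝ) ^ j * R)).indicator
      (fun y => ((1 / 256 : ℝ) ^ j * R)⁻¹ * m y) y) (closedBall x R) := fun j =>
    ((hint R).const_mul _).indicator isClosed_closedBall.measurableSet
  simp_rw [h1]
  rw [← integral_finsetSum _ fun j _ => hI j]
  have h2 : ∫ y in closedBall x R, ∑ j ∈ Finset.range n,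
      (closedBall x ((1 / 256 : ℝ) ^ j * R)).indicator
        (fun y => ((1 / 256 : ℝ) ^ j * R)⁻¹ * m y) y
      ≤ ∫ y in closedBall x R, 2 * (m y / ‖y - x‖) := by
    refine integral_mono_ae (integrable_finsetSum _ fun j _ => hI j)
      ((int_inv x R hm).const_mul 2) ?_
    have hne : ∀ᵐ y ∂(volume.restrict (closedBall x R)), y ≠ x :=
      ae_restrict_of_ae (by
        have : (volume : Measure V) {x} = 0 := measure_singleton x
        exact compl_mem_ae_iff.2 this)
    filter_upwards [hne] with y hy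
    have ht : 0 < ‖y - x‖ := norm_pos_iff.2 (sub_ne_zero.2 hy)
    have h3 : ∀ j ∈ Finset.range n, (closedBall x ((1 / 256 : ℝ) ^ j * R)).indicator
        (fun y => ((1 / 256 : ℝ) ^ j * R)⁻¹ * m y) y
        = (if ‖y - x‖ ≤ (1 / 256 : ℝ) ^ j * R then ((1 / 256 : ℝ) ^ j * R)⁻¹ else 0) * m y := by
      intro j _
      by_cases hc : ‖y - x‖ ≤ (1 / 256 : ℝ) ^ j * R
      · rw [if_pos hc, indicator_of_mem (by rw [mem_closedBall, dist_eq_norm]; exact hc)]
      · rw [if_neg hc, indicator_of_notMem (by rw [mem_closedBall, dist_eq_norm]; exact hc),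
          zero_mul]
    show ∑ j ∈ Finset.range n, (closedBall x ((1 / 256 : ℝ) ^ j * R)).indicator
        (fun y => ((1 / 256 : ℝ) ^ j * R)⁻¹ * m y) y ≤ 2 * (m y / ‖y - x‖)
    rw [Finset.sum_congr rfl h3, ← Finset.sum_mul]
    refine (mul_le_mul_of_nonneg_right (geo_sum n hR ht) (h0 y)).trans (le_of_eq ?_)
    ring
  refine h2.trans ?_
  rw [integral_const_mul]
  linarith

end Pool.Agent.Q85.VL
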