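import Pool.Agent.Q85.VL.Defs

/-!
Project VL: thresholds.
-/

set_option autoImplicit false

open MeasureTheory Set Metric
open scoped ContDiff
open H459R3.NS Pool.Agent.W268.NS Pool.Agent.Q67.VD

namespace Pool.Agent.Q85.VL

/-- The thresholds: continuous, nonnegative and in the Kato class, uniformly in the time. -/
structure Thr (T₀ T : ℝ) (a : V) (R : ℝ) (m : ℝ → V → ℝ) : Prop where
  cont : ∀ t ∈ Ioo T₀ T, Continuous (m t)
  nonneg : ∀ t ∈ Ioo T₀ T, ∀ y, 0 ≤ m t y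
  kato : Kato T₀ T a R m

/-- VL-16. A threshold of nearly critical size: `M / (ρ (1 + |log ρ|))²` where
`ρ = ‖y - a‖ + √(T - t)` is the parabolic distance from `(T, a)`. -/
def StmEx : Prop := ∀ (T₀ T : ℝ) (a : V) (R M : ℝ), 0 ≤ M →
  Thr T₀ T a R (fun t y => M / ((‖y - a‖ + √(T - t)) *
    (1 + |Real.log (‖y - a‖ + √(T - t))|)) ^ 2)

end Pool.Agent.Q85.VL
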