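import Pool.Agent.Q85.VL.Cor
import Pool.Agent.Q85.VL.Defs2

/-!
Project VL: the angles, and the theorems at a singular point.
-/

set_option autoImplicit false

open MeasureTheory Set Metric Filter Topology
open scoped ContDiff
open H459R3.NS Pool.Agent.W268.NS Pool.Agent.Q67.VD
open Pool.Agent.Q199.VD

namespace Pool.Agent.Q85.VL

open Pool.Agent.Q85.CC Pool.Agent.Q85.CL
open Pool.Agent.Q284.CL (pd_evD pd_cmulD)

lemma Kato.mono {T₀ T R R' : ℝ} {a : V} {m : ℝ → V → ℝ} (h : Kato T₀ T a R m) (hR : R' ≤ R) :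
    Kato T₀ T a R' m := by
  intro μ hμ
  obtain ⟨S, hS, h1⟩ := h μ hμ
  exact ⟨S, hS, fun t ht x S' hS' hSS hx => h1 t ht x S' hS' hSS (hx.trans hR)⟩

/-- All the angles between a large and a nonzero vorticity, in an open set. -/
theorem ang_K (hLy : StmLyap) (hDm : StmDom) (hGd : StmGdL) (hSeg : StmSegAn) {ν T E : ℝ}
    {Ω : Set V} {u : ℝ → V → V} {p : ℝ → V → ℝ} (hν : 0 < ν) (hT : 0 < T) (h : DSl ν T E Ω u p)
    {T₀ c ε R : ℝ} {a : V} {m : ℝ → V → ℝ} (hT0 : 0 ≤ T₀) (hT₀ : T₀ < T) (hc0 : 0 ≤ c)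
    (hc1 : c ≤ 1) (hε : 0 < ε) (hR : 0 < R) (hΩ : closedBall a R ⊆ Ω)
    (hmc : ∀ t ∈ Ioo T₀ T, Continuous (m t))
    (hm0 : ∀ t ∈ Ioo T₀ T, ∀ y, 0 ≤ m t y) (hK : Kato T₀ T a R m)
    (hc : ∀ t ∈ Ioo T₀ T, ∀ x y, ‖x - a‖ ≤ R → ‖y - a‖ ≤ R → m t x < om (u t) x →
      0 < om (u t) y → ε * (om (u t) x * om (u t) y)
        ≤ |(|vort (u t) x ⬝ᵥ vort (u t) y| - c * (om (u t) x * om (u t) y))|) :
    ∃ B δ : ℝ, 0 < δ ∧ ∀ t ∈ Ioo 0 T, T - δ < t → ∀ x, ‖x - a‖ ≤ δ → ‖u t x‖ ≤ B := by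
  obtain ⟨E', v, q, hL, hv⟩ := hDm ν T E Ω u p hν hT h a R hR hΩ
  refine dbl_K hLy hDm hν hT h (T₀ := T₀) (κ := max c ε) (m := m) (R := R / 2) (a := a) hT0
    hT₀ (lt_max_of_lt_right hε) (by positivity)
    ((closedBall_subset_closedBall (by linarith)).trans hΩ) hmc hm0 (hK.mono (by linarith)) ?_
  rintro t ht0 ⟨x, hx, hMx'⟩
  have ht : t ∈ Ioo 0 T := ⟨hT0.trans_lt ht0.1, ht0.2⟩
  have hx0 : 0 < om (u t) x := (hm0 t ht0 x).trans_lt hMx'
  refine ⟨(om (u t) x)⁻¹ • vort (u t) x, ?_, fun y hy => ?_⟩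
  · rw [smul_dotProduct, dotProduct_smul, ← om_sq, smul_eq_mul, smul_eq_mul]
    field_simp
  by_cases hy0 : om (u t) y = 0
  · rw [hy0, mul_zero]
    exact abs_nonneg _
  have hy0' : 0 < om (u t) y := lt_of_le_of_ne (om_nnL _ _) (Ne.symm hy0)
  rw [smul_dotProduct, smul_eq_mul, abs_mul, abs_of_pos (inv_pos.2 hx0)]
  by_contra hlt
  push Not at hlt
  have hlt2 : |vort (u t) x ⬝ᵥ vort (u t) y| < max c ε * (om (u t) x * om (u t) y) := by
    have h1 := mul_lt_mul_of_pos_left hlt hx0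
    calc |vort (u t) x ⬝ᵥ vort (u t) y|
        = om (u t) x * ((om (u t) x)⁻¹ * |vort (u t) x ⬝ᵥ vort (u t) y|) := by field_simp
      _ < om (u t) x * (max c ε * om (u t) y) := h1
      _ = _ := by ring
  have hxy : 0 < om (u t) x * om (u t) y := mul_pos hx0 hy0'
  rcases lt_or_ge c ε with hcε | hcε
  · rw [max_eq_right hcε.le] at hlt2
    have h1 := hc t ht0 x y (by linarith) (by linarith) hMx' hy0'
    have h2 : |(|vort (u t) x ⬝ᵥ vort (u t) y| - c * (om (u t) x * om (u t) y))|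
        < ε * (om (u t) x * om (u t) y) := by
      rw [abs_lt]
      constructor
      · have h3 : c * (om (u t) x * om (u t) y) < ε * (om (u t) x * om (u t) y) :=
          mul_lt_mul_of_pos_right hcε hxy
        linarith [abs_nonneg (vort (u t) x ⬝ᵥ vort (u t) y)]
      · have h3 : 0 ≤ c * (om (u t) x * om (u t) y) := by positivity
        linarith
    linarith
  · rw [max_eq_left hcε] at hlt2
    -- the scaled solution
    have hνt : ν * t ∈ Ioo 0 (ν * T) := ⟨mul_pos hν ht.1, mul_lt_mul_of_pos_left ht.2 hν⟩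
    have hev : ∀ z, ‖z - a‖ ≤ R / 2 → ∀ᶠ w in 𝓝 z, v (ν * t) w = ν⁻¹ • u t w := by
      intro z hz
      exact ball_ev (a := a) (R := R) (fun w hw => hv t ht w hw) (by
        rw [mem_ball, dist_eq_norm]
        linarith)
    have hsm : SM (v (ν * t)) := slice_u hL.toLEq hνt
    have hνi : 0 < ν⁻¹ := inv_pos.2 hν
    have han := hSeg (v (ν * t)) x y hsm (fun s hs => hGd (ν * T) E' _ v q (by positivity) hL
      (ν * t) hνt _ (by
        rw [mem_ball, dist_eq_norm]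
        exact (seg_ball hx hy hs).trans_lt (by linarith)))
    obtain ⟨g, hg⟩ : ∃ g : ℝ → V, g = fun s => vort (v (ν * t)) (x + s • (y - x)) := ⟨_, rfl⟩
    rw [← hg] at han
    have hgs : ∀ s ∈ Icc (0 : ℝ) 1, g s = ν⁻¹ • vort (u t) (x + s • (y - x)) := by
      intro s hs
      rw [hg]
      exact vort_evD (hev _ (seg_ball hx hy hs))
    have hg0 : g 0 = ν⁻¹ • vort (u t) x := by
      rw [hgs 0 ⟨le_rfl, zero_le_one⟩, zero_smul, add_zero]
    have hg1 : g 1 = ν⁻¹ • vort (u t) y := by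
      rw [hgs 1 ⟨zero_le_one, le_rfl⟩, one_smul, add_sub_cancel]
    have hvx : vort (u t) x ≠ 0 := by
      intro h0
      have : om (u t) x = 0 := by
        unfold om len
        rw [h0]
        simp
      linarith
    have hvy : vort (u t) y ≠ 0 := by
      intro h0
      have : om (u t) y = 0 := by
        unfold om len
        rw [h0]
        simp
      linarith
    have hlen : ∀ z, len (ν⁻¹ • vort (u t) z) = ν⁻¹ * om (u t) z := by
      intro z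
      rw [len_smulI, abs_of_pos hνi]
      rfl
    obtain ⟨s, hs, hgs0, hsd⟩ := ang g c ε han (by rw [hg0]; exact smul_ne_zero hνi.ne' hvx)
      (by rw [hg1]; exact smul_ne_zero hνi.ne' hvy) hε hc0 hc1 (by
        rw [hg0, hg1, hlen, hlen, smul_dotProduct, dotProduct_smul, smul_eq_mul, smul_eq_mul,
          abs_mul, abs_mul, abs_of_pos hνi]
        have h1 : ν⁻¹ * (ν⁻¹ * |vort (u t) x ⬝ᵥ vort (u t) y|)
            ≤ ν⁻¹ * (ν⁻¹ * (c * (om (u t) x * om (u t) y))) :=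
          mul_le_mul_of_nonneg_left (mul_le_mul_of_nonneg_left hlt2.le hνi.le) hνi.le
        linarith)
    have hzR := seg_ball hx hy hs
    obtain ⟨z, hz⟩ : ∃ z, z = x + s • (y - x) := ⟨_, rfl⟩
    have hgz : g s = ν⁻¹ • vort (u t) z := by rw [hgs s hs, hz]
    rw [← hz] at hzR
    have hz0 : 0 < om (u t) z := by
      refine lt_of_le_of_ne (om_nnL _ _) fun h0 => hgs0 ?_
      have h1 : len (g s) = 0 := by rw [hgz, hlen, ← h0, mul_zero]
      by_contra hne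
      exact (len_posI hne).ne' h1
    rw [hg0, hgz, hlen, hlen, smul_dotProduct, dotProduct_smul, smul_eq_mul, smul_eq_mul,
      abs_mul, abs_mul, abs_of_pos hνi] at hsd
    have h1 := hc t ht0 x z (by linarith) (by linarith) hMx' hz0
    have e1 : ν⁻¹ * (ν⁻¹ * |vort (u t) x ⬝ᵥ vort (u t) z|)
        - c * (ν⁻¹ * om (u t) x * (ν⁻¹ * om (u t) z))
        = ν⁻¹ * ν⁻¹ * (|vort (u t) x ⬝ᵥ vort (u t) z| - c * (om (u t) x * om (u t) z)) := by ring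
    rw [e1, abs_mul, abs_of_pos (mul_pos hνi hνi)] at hsd
    have e2 : ε * (ν⁻¹ * om (u t) x * (ν⁻¹ * om (u t) z))
        = ν⁻¹ * ν⁻¹ * (ε * (om (u t) x * om (u t) z)) := by ring
    rw [e2] at hsd
    have h2 := lt_of_mul_lt_mul_left hsd (mul_pos hνi hνi).le
    linarith

/-- Half-space form, at a singular point in an open set. -/
theorem sing_halfK (hLy : StmLyap) {ν T E : ℝ} {Ω : Set V} {u : ℝ → V → V} {p : ℝ → V → ℝ}
    (hν : 0 < ν) (h : DSl ν T E Ω u p) {a : V} (ha : a ∈ Ω) (hs : Sing T u a) {T₀ κ R : ℝ}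
    {m : ℝ → V → ℝ} (hT0 : 0 ≤ T₀) (hT₀ : T₀ < T) (hκ : 0 < κ) (hR : 0 < R)
    (hm : Thr T₀ T a R m) :
    ∃ t ∈ Ioo T₀ T, ∀ e : V, e ⬝ᵥ e = 1 → ∃ y, ‖y - a‖ ≤ R ∧ m t y < om (u t) y ∧
      e ⬝ᵥ vort (u t) y < κ * om (u t) y := by
  by_contra hcon
  push Not at hcon
  obtain ⟨R', hR', hRR, hsub⟩ := small_ball h.openO ha hR
  refine hs.not_bdd (half_K hLy Pool.Agent.Q284.CL.dom hν hs.pos h hT0 hT₀ hκ hR' hsub hm.cont
    hm.nonneg (hm.kato.mono hRR) fun t ht => ?_)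
  obtain ⟨e, he, hy⟩ := hcon t ht
  exact ⟨e, he, fun y hyR => hy y (hyR.trans hRR)⟩

/-- Double cones, at a singular point in an open set. -/
theorem sing_dblK (hLy : StmLyap) {ν T E : ℝ} {Ω : Set V} {u : ℝ → V → V} {p : ℝ → V → ℝ}
    (hν : 0 < ν) (h : DSl ν T E Ω u p) {a : V} (ha : a ∈ Ω) (hs : Sing T u a) {T₀ κ R : ℝ}
    {m : ℝ → V → ℝ} (hT0 : 0 ≤ T₀) (hT₀ : T₀ < T) (hκ : 0 < κ) (hR : 0 < R)
    (hm : Thr T₀ T a R m) :
    ∃ t ∈ Ioo T₀ T, (∃ x, ‖x - a‖ ≤ R ∧ m t x < om (u t) x) ∧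
      ∀ e : V, e ⬝ᵥ e = 1 → ∃ y, ‖y - a‖ ≤ R ∧ |e ⬝ᵥ vort (u t) y| < κ * om (u t) y := by
  by_contra hcon
  push Not at hcon
  obtain ⟨R', hR', hRR, hsub⟩ := small_ball h.openO ha hR
  refine hs.not_bdd (dbl_K hLy Pool.Agent.Q284.CL.dom hν hs.pos h hT0 hT₀ hκ hR' hsub hm.cont
    hm.nonneg (hm.kato.mono hRR) fun t ht hex => ?_)
  obtain ⟨x, hx, hMx⟩ := hex
  obtain ⟨e, he, hy⟩ := hcon t ht ⟨x, hx.trans hRR, hMx⟩
  exact ⟨e, he, fun y hyR => hy y (hyR.trans hRR)⟩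

/-- All the angles, at a singular point in an open set. -/
theorem sing_angK (hLy : StmLyap) (hGd : StmGdL) {ν T E : ℝ} {Ω : Set V} {u : ℝ → V → V}
    {p : ℝ → V → ℝ} (hν : 0 < ν) (h : DSl ν T E Ω u p) {a : V} (ha : a ∈ Ω) (hs : Sing T u a)
    {T₀ c ε R : ℝ} {m : ℝ → V → ℝ} (hT0 : 0 ≤ T₀) (hT₀ : T₀ < T) (hc0 : 0 ≤ c) (hc1 : c ≤ 1)
    (hε : 0 < ε) (hR : 0 < R) (hm : Thr T₀ T a R m) :
    ∃ t ∈ Ioo T₀ T, ∃ x y : V, ‖x - a‖ ≤ R ∧ ‖y - a‖ ≤ R ∧ m t x < om (u t) x ∧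
      0 < om (u t) y ∧
      |(|vort (u t) x ⬝ᵥ vort (u t) y| - c * (om (u t) x * om (u t) y))|
        < ε * (om (u t) x * om (u t) y) := by
  by_contra hcon
  push Not at hcon
  obtain ⟨R', hR', hRR, hsub⟩ := small_ball h.openO ha hR
  exact hs.not_bdd (ang_K hLy Pool.Agent.Q284.CL.dom hGd Pool.Agent.Q16.CL.segAn hν hs.pos h
    hT0 hT₀ hc0 hc1 hε hR' hsub hm.cont hm.nonneg (hm.kato.mono hRR)
    fun t ht x y hx hy => hcon t ht x y (hx.trans hRR) (hy.trans hRR))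

/-- Two directions with an angle larger than the tetrahedral angle, at a fixed time. -/
theorem tetra_pair {v : V → V} {m : V → ℝ} {a : V} {R κ : ℝ} (hκ : 0 < κ) (hκ1 : κ ≤ 1 / 2)
    (hm : ∀ y, 0 ≤ m y)
    (h : ∀ e : V, e ⬝ᵥ e = 1 → ∃ y, ‖y - a‖ ≤ R ∧ m y < om v y ∧ e ⬝ᵥ vort v y < κ * om v y) :
    ∃ x y : V, ‖x - a‖ ≤ R ∧ ‖y - a‖ ≤ R ∧ m x < om v x ∧ m y < om v y ∧
      vort v x ⬝ᵥ vort v y < (2 * κ - 1 / 3) * (om v x * om v y) := by
  by_contra hcon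
  push Not at hcon
  obtain ⟨D, hD⟩ : ∃ D : Set V, D = {b | ∃ y, ‖y - a‖ ≤ R ∧ m y < om v y ∧
    b = (om v y)⁻¹ • vort v y} := ⟨_, rfl⟩
  have hpos : ∀ y, m y < om v y → 0 < om v y := fun y hy => (hm y).trans_lt hy
  obtain ⟨e, he, hea⟩ := tetra (ε := 2 * κ) (by positivity) (by linarith) (D := D) (by
    rw [hD]
    rintro b ⟨y, -, hy, rfl⟩
    have h0 := hpos y hy
    rw [smul_dotProduct, dotProduct_smul, ← om_sq, smul_eq_mul, smul_eq_mul]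
    field_simp) (by
    rw [hD]
    rintro b ⟨y, hy1, hy2, rfl⟩ b' ⟨z, hz1, hz2, rfl⟩
    have hy0 := hpos y hy2
    have hz0 := hpos z hz2
    rw [smul_dotProduct, dotProduct_smul, smul_eq_mul, smul_eq_mul]
    have h2 := hcon y z hy1 hz1 hy2 hz2
    calc 2 * κ - 1 / 3 = (om v y)⁻¹ * ((om v z)⁻¹ *
          ((2 * κ - 1 / 3) * (om v y * om v z))) := by field_simp
      _ ≤ _ := mul_le_mul_of_nonneg_left (mul_le_mul_of_nonneg_left h2 (inv_nonneg.2 hz0.le))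
        (inv_nonneg.2 hy0.le))
  obtain ⟨y, hy, hMy, hlt⟩ := h e he
  have h0 := hpos y hMy
  have h1 := hea ((om v y)⁻¹ • vort v y) (by rw [hD]; exact ⟨y, hy, hMy, rfl⟩)
  rw [dotProduct_smul, smul_eq_mul] at h1
  have h2 : κ * om v y ≤ e ⬝ᵥ vort v y := by
    calc κ * om v y = (2 * κ / 2) * om v y := by ring
      _ ≤ ((om v y)⁻¹ * (e ⬝ᵥ vort v y)) * om v y := mul_le_mul_of_nonneg_right h1 h0.le
      _ = e ⬝ᵥ vort v y := by field_simp
  linarith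

end Pool.Agent.Q85.VL
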